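import Mathlib

/-!
Donaldson–Thomas type invariants of torsion free sheaves on a rational elliptic surface `X`, along a
path of polarisations from a ruling class to the fibre class: lattice, quantum torus, wall-crossing.
-/

set_option autoImplicit false

open Polynomial

namespace Pool.Agent.H43.DP

/-- Divisor classes `d H - ∑ aᵢ eᵢ` of the blow-up of `ℙ²` in nine points, written `(d, a)`. -/
abbrev Pic : Type := ℤ × (Fin 9 → ℤ)

/-- The intersection number. -/
def dot (D E : Pic) : ℤ := D.1 * E.1 - ∑ i, D.2 i * E.2 i

/-- The anticanonical class `F = -K = 3 H - ∑ eᵢ`, the class of an elliptic fibre. -/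
def Fib : Pic := (3, fun _ => 1)

/-- Numerical classes `(r, D, χ)`: rank, first Chern class, Euler characteristic. -/
abbrev Cls : Type := ℤ × Pic × ℤ

/-- Coefficients: rational functions in `t` over `ℂ`. -/
abbrev K : Type := RatFunc ℂ

/-- The variable `t` (the square root of the Lefschetz motive). -/
noncomputable def t : K := RatFunc.X

/-- The antisymmetrised Euler pairing `χ(a, b) - χ(b, a) = F · (r(a) D(b) - r(b) D(a))` of `X`. -/
def pair (a b : Cls) : ℤ := a.1 * dot Fib b.2.1 - b.1 * dot Fib a.2.1

/-- The total class `∑ m(a) a`. -/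
noncomputable def total (m : Cls →₀ ℕ) : Cls := m.sum fun a k => k • a

/-- `∑ m(a) m(b) max(⟨a, b⟩, 0)`, over all ordered pairs `(a, b)`. -/
noncomputable def crossing (m : Cls →₀ ℕ) : ℕ :=
  m.sum fun a k => m.sum fun b l => k * l * (pair a b).toNat

/-- In the quantum torus with basis `z^a` and product `z^a z^b = t^⟨a,b⟩ z^(a+b)`, the coefficient of
`z^g` in the product of the exponentials `exp (c a · z^a)`, taken in an order in which `a` precedes
`b` whenever `⟨a, b⟩` has the sign of `ε` (`ε = 1` or `ε = -1`). -/
noncomputable def ordProd (ε : ℤ) (c : Cls → K) (g : Cls) : K :=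
  ∑ᶠ (m : Cls →₀ ℕ) (_ : total m = g),
    (m.prod fun a k => c a ^ k / (k.factorial : K)) * t ^ (ε * crossing m)

/-- The degree `J_s · D` for the polarisation `J_s = (1 - s) f + s F`. -/
noncomputable def jdeg (f : Pic) (s : ℝ) (D : Pic) : ℝ := (1 - s) * dot f D + s * dot Fib D

open Classical in
/-- Restriction of coefficients to the classes `a` of `J_s`-slope `μ`, i.e. `J_s · D(a) = μ r(a)`. -/
noncomputable def onSlope (f : Pic) (s μ : ℝ) (c : Cls → K) (a : Cls) : K :=
  if jdeg f s a.2.1 = μ * a.1 then c a else 0

open Classical in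
/-- The shape of a Donaldson–Thomas coefficient of class `a`: a sum, over the integers `k ≥ 1` which
divide `a`, of Laurent polynomials divided by `t^k - t^(-k)`. -/
def IsDT (a : Cls) (c : K) : Prop :=
  ∃ (n : ℕ) (p : ℕ → ℂ[X]), c = ∑ k ∈ (Finset.Icc 1 a.1.toNat).filter (fun k => ∃ b : Cls, a = k • b),
    algebraMap ℂ[X] K (p k) / (t ^ n * (t ^ k - (t ^ k)⁻¹))

/-- The Bogomolov inequality `2 r ch₂ ≤ D²`, where `2 ch₂ = 2 χ - 2 r - F · D`, for positive rank. -/
def Bog (a : Cls) : Prop := 0 < a.1 ∧ a.1 * (2 * a.2.2 - 2 * a.1 - dot Fib a.2.1) ≤ dot a.2.1 a.2.1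

/-- Initial data at the ruling `f`: coefficients of the shape of Donaldson–Thomas coefficients, supported
on classes of positive rank which satisfy the Bogomolov inequality and whose rank divides `f · D`. (A
sheaf semistable for polarisations near `f` is semistable on the general fibre `ℙ¹` of the ruling.) -/
structure IsInitial (f : Pic) (c : Cls → K) : Prop where
  bogomolov : ∀ a, c a ≠ 0 → Bog a
  vanishing : ∀ a, c a ≠ 0 → a.1 ∣ dot f a.2.1
  integrality : ∀ a, IsDT a (c a)

/-- The wall-crossing flow along the polarisations `J_s = (1 - s) f + s F`, `0 < s < 1`, with initial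
data `c`: `inc s a` and `out s a` are the coefficients of `z^a` just before and just after `J_s` (in
geometry, in the logarithm of the generating series of semistable sheaves). -/
structure IsFlow (f : Pic) (c : Cls → K) (inc out : ℝ → Cls → K) : Prop where
  /-- positive rank and the Bogomolov inequality -/
  support : ∀ s a, (inc s a ≠ 0 ∨ out s a ≠ 0) → 0 < s ∧ s < 1 ∧ Bog a
  /-- near the ruling the coefficients are the initial ones -/
  initial : ∀ a, ∃ ε > 0, ∀ s, 0 < s → s < ε → inc s a = c a ∧ out s a = c a
  /-- the coefficient of a class is constant just after and just before `s` -/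
  propagation : ∀ s a, 0 < s → s < 1 → ∃ ε > 0, ∀ u, 0 < u → u < ε →
    (inc (s + u) a = out s a ∧ out (s + u) a = out s a) ∧
    (inc (s - u) a = inc s a ∧ out (s - u) a = inc s a)
  /-- wall-crossing: for each slope `μ` the product of the exponentials of the incoming terms of slope
  `μ`, by decreasing slope with respect to the polarisation before `J_s`, is the product of those of the
  outgoing terms, by decreasing slope with respect to the polarisation after `J_s` (in geometry, both
  are the generating series of `J_s`-semistable sheaves) -/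
  wallCrossing : ∀ s μ g, 0 < s → s < 1 →
    ordProd 1 (onSlope f s μ (inc s)) g = ordProd (-1) (onSlope f s μ (out s)) g

/-- Near the fibre class `F`, i.e. for `s` near `1`, the coefficient of `z^a` is `v`. -/
def IsEnd (out : ℝ → Cls → K) (a : Cls) (v : K) : Prop := ∃ ε > 0, ∀ s, 1 - ε < s → s < 1 → out s a = v

/-- Rulings: the nef classes `f` with `f² = 0` and `F · f = 2`, i.e. `f · e ≥ 0` for the classes `e` of
the exceptional curves (`e² = -1`, `F · e = 1`). -/
def IsRuling (f : Pic) : Prop :=
  dot f f = 0 ∧ dot Fib f = 2 ∧ ∀ e : Pic, dot e e = -1 → dot Fib e = 1 → 0 ≤ dot f e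

/-- The class of the relative Fourier–Mukai transform of a sheaf of class `(0, β, 1)`, for the
zero section `e₉`, when `β · e₉ = 0`: rank `w = F · β`, first Chern class `β + F - w e₉`, Euler
characteristic `0`. -/
def fmClass (β : Pic) : Cls :=
  (dot Fib β, β + Fib + dot Fib β • ((0, Pi.single 8 1) : Pic), 0)

/-- `Q = ∑ bᵢ qⁱ` has degree at most `N` and `bᵢ = b_(N-i)`. -/
def IsPalindromic (N : ℤ) (Q : ℤ[X]) : Prop :=
  (∀ i : ℕ, N < i → Q.coeff i = 0) ∧ ∀ i j : ℕ, (i : ℤ) + j = N → Q.coeff i = Q.coeff j

end Pool.Agent.H43.DP
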