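import Pool.Agent.H43.DP.Lattice

/-!
At a fixed polarisation and slope the classes satisfying the Bogomolov inequality are locally finite for
an additive degree function.
-/

set_option autoImplicit false

open Finset

namespace Pool.Agent.H43.DP

/-- second Chern character -/
noncomputable def ch2 (a : Cls) : ℝ := a.2.2 - a.1 - dot Fib a.2.1 / 2

/-- the degree function `C r - ch₂` -/
noncomputable def degHom (C : ℝ) : Cls →+ ℝ := AddMonoidHom.mk' (fun a => C * a.1 - ch2 a) (by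
  intro a b
  unfold ch2
  simp only [Prod.fst_add, Prod.snd_add, dot_add]
  push_cast
  ring)

lemma degHom_apply (C : ℝ) (a : Cls) : degHom C a = C * a.1 - ch2 a := rfl

/-- the conditions on a class in the support -/
def Adm (f : Pic) (s μ : ℝ) (a : Cls) : Prop :=
  0 < a.1 ∧ a.1 * (2 * a.2.2 - 2 * a.1 - dot Fib a.2.1) ≤ dot a.2.1 a.2.1 ∧
    jdeg f s a.2.1 = μ * a.1

section

variable {f : Pic} (hf : dot f f = 0) (hF : dot Fib f = 2) {s μ : ℝ} (h0 : 0 < s) (h1 : s < 1)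

include hf hF in
lemma ch2_le {a : Cls} (h : Adm f s μ a) :
    2 * (a.1 : ℝ) * ch2 a ≤ (dot f a.2.1 : ℝ) * dot Fib a.2.1 ∧
    4 * (s * (1 - s)) * ((dot f a.2.1 : ℝ) * dot Fib a.2.1) ≤ μ ^ 2 * (a.1 : ℝ) ^ 2 := by
  obtain ⟨hr, hb, hs⟩ := h
  have hh := hodge hf hF a.2.1
  constructor
  · have h2 : ((a.1 * (2 * a.2.2 - 2 * a.1 - dot Fib a.2.1) : ℤ) : ℝ) ≤
        ((dot f a.2.1 * dot Fib a.2.1 : ℤ) : ℝ) := by exact_mod_cast hb.trans hh
    push_cast at h2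
    unfold ch2
    linarith
  · unfold jdeg at hs
    set x : ℝ := (dot f a.2.1 : ℝ)
    set y : ℝ := (dot Fib a.2.1 : ℝ)
    have e : μ ^ 2 * (a.1 : ℝ) ^ 2 = ((1 - s) * x + s * y) ^ 2 := by rw [hs]; ring
    rw [e]
    nlinarith [sq_nonneg ((1 - s) * x - s * y)]

include hf hF h0 h1

lemma deg_pos {C : ℝ} (hC : μ ^ 2 / (8 * (s * (1 - s))) + 1 ≤ C) {a : Cls} (h : Adm f s μ a) :
    (a.1 : ℝ) ≤ degHom C a := by
  obtain ⟨c1, c2⟩ := ch2_le hf hF h
  have hr : (0 : ℝ) < a.1 := by exact_mod_cast h.1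
  have hs : 0 < s * (1 - s) := mul_pos h0 (by linarith)
  rw [degHom_apply]
  -- ch2 ≤ r μ² / (8 s (1-s))
  have h3 : ch2 a ≤ a.1 * (μ ^ 2 / (8 * (s * (1 - s)))) := by
    rw [mul_div_assoc', le_div_iff₀ (by positivity)]
    have h4 : 8 * (s * (1 - s)) * (a.1 * ch2 a) ≤ μ ^ 2 * (a.1 : ℝ) ^ 2 := by
      have : 4 * (s * (1 - s)) * (2 * a.1 * ch2 a) ≤
          4 * (s * (1 - s)) * ((dot f a.2.1 : ℝ) * dot Fib a.2.1) :=
        mul_le_mul_of_nonneg_left c1 (by positivity)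
      linarith
    have h5 : a.1 * (ch2 a * (8 * (s * (1 - s)))) ≤ a.1 * (a.1 * μ ^ 2) := by
      calc a.1 * (ch2 a * (8 * (s * (1 - s)))) = 8 * (s * (1 - s)) * (a.1 * ch2 a) := by ring
        _ ≤ μ ^ 2 * (a.1 : ℝ) ^ 2 := h4
        _ = a.1 * (a.1 * μ ^ 2) := by ring
    exact le_of_mul_le_mul_left h5 hr
  nlinarith

lemma finite_deg {C : ℝ} (hC : μ ^ 2 / (8 * (s * (1 - s))) + 1 ≤ C) (A : ℝ) :
    {a : Cls | degHom C a ≤ A ∧ Adm f s μ a}.Finite := by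
  have hs : 0 < s * (1 - s) := mul_pos h0 (by linarith)
  have hs1 : 0 < 1 - s := by linarith
  -- bounds
  set E : ℝ := μ ^ 2 * A ^ 2 + 2 * A ^ 2 with hE
  obtain ⟨N, hN⟩ := exists_nat_gt (E / (1 - s) ^ 2 + E / s ^ 2 + 1)
  obtain ⟨B, hB⟩ := exists_nat_gt (2 * A ^ 2)
  obtain ⟨R, hR⟩ := exists_nat_gt A
  obtain ⟨Z, hZ⟩ := exists_nat_gt (A * (C + 2) + N + A)
  have hJ : dot (Fib + f) (Fib + f) = 4 := by
    have hF' : dot f Fib = 2 := by rw [dot_comm]; exact hF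
    simp only [dot_add, add_dot, fib_sq, hf, hF, hF']
    norm_num
  have hfin := finite_pic (J := Fib + f) (by rw [hJ]; norm_num) (2 * N) B
  refine ((Set.finite_Icc (1 : ℤ) R).prod (hfin.prod (Set.finite_Icc (-(Z : ℤ)) Z))).subset ?_
  rintro a ⟨hdeg, hadm⟩
  obtain ⟨c1, c2⟩ := ch2_le hf hF hadm
  have hpos := deg_pos hf hF h0 h1 hC hadm
  obtain ⟨hr, hb, hsl⟩ := hadm
  have hrA : (a.1 : ℝ) ≤ A := hpos.trans hdeg
  have hr1 : (1 : ℝ) ≤ a.1 := by exact_mod_cast hr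
  have hA1 : 1 ≤ A := hr1.trans hrA
  rw [degHom_apply] at hdeg hpos
  have hC1 : 1 ≤ C := by
    have : 0 ≤ μ ^ 2 / (8 * (s * (1 - s))) := by positivity
    linarith
  set x : ℝ := (dot f a.2.1 : ℝ) with hx
  set y : ℝ := (dot Fib a.2.1 : ℝ) with hy
  have hCa : C * a.1 ≤ C * A := mul_le_mul_of_nonneg_left hrA (by linarith)
  have hCa0 : 0 ≤ C * a.1 := by positivity
  have hch : -A ≤ ch2 a := by linarith
  have hch' : ch2 a ≤ C * A := by linarith
  have hrch : -(2 * A ^ 2) ≤ 2 * a.1 * ch2 a := by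
    have e1 : a.1 * (-A) ≤ a.1 * ch2 a := mul_le_mul_of_nonneg_left hch (by linarith)
    have e2 : a.1 * A ≤ A * A := mul_le_mul_of_nonneg_right hrA (by linarith)
    linarith
  have hxy : -(2 * A ^ 2) ≤ x * y := by linarith
  have hu : ((1 - s) * x + s * y) ^ 2 ≤ μ ^ 2 * A ^ 2 := by
    unfold jdeg at hsl
    rw [hsl, mul_pow]
    exact mul_le_mul_of_nonneg_left (pow_le_pow_left₀ (by linarith) hrA 2) (sq_nonneg _)
  have hprod : -(A ^ 2) ≤ 2 * (s * (1 - s) * (x * y)) := by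
    have h4 : s * (1 - s) ≤ 1 / 4 := by nlinarith [sq_nonneg (s - 1 / 2)]
    have h5 : s * (1 - s) * (-(2 * A ^ 2)) ≤ s * (1 - s) * (x * y) :=
      mul_le_mul_of_nonneg_left hxy hs.le
    have h6 : s * (1 - s) * (2 * A ^ 2) ≤ 1 / 4 * (2 * A ^ 2) :=
      mul_le_mul_of_nonneg_right h4 (by positivity)
    linarith
  have huv : ((1 - s) * x) ^ 2 + (s * y) ^ 2 ≤ E := by
    have e1 : ((1 - s) * x) ^ 2 + (s * y) ^ 2 =
        ((1 - s) * x + s * y) ^ 2 - 2 * (s * (1 - s) * (x * y)) := by ring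
    rw [hE, e1]
    have := sq_nonneg A
    linarith
  have hx2 : x ^ 2 ≤ E / (1 - s) ^ 2 := by
    rw [le_div_iff₀ (by positivity)]
    have := sq_nonneg (s * y)
    rw [mul_pow] at huv
    linarith
  have hy2 : y ^ 2 ≤ E / s ^ 2 := by
    rw [le_div_iff₀ (by positivity)]
    have := sq_nonneg ((1 - s) * x)
    rw [mul_pow s y] at huv
    linarith
  have hE0 : 0 ≤ E := by rw [hE]; positivity
  have hE1 : 0 ≤ E / (1 - s) ^ 2 := by positivity
  have hE2 : 0 ≤ E / s ^ 2 := by positivity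
  have habs : ∀ z : ℝ, z ^ 2 ≤ (N : ℝ) - 1 → |z| ≤ N := by
    intro z hz
    have h4 : |z| ^ 2 ≤ N - 1 := by rw [sq_abs]; exact hz
    nlinarith [sq_nonneg (|z| - 1), abs_nonneg z]
  have hxN : |x| ≤ N := habs x (by linarith)
  have hyN : |y| ≤ N := habs y (by linarith)
  refine ⟨⟨hr, ?_⟩, ⟨?_, ?_⟩, ?_⟩
  · have : (a.1 : ℝ) ≤ R := by linarith
    exact_mod_cast this
  · rw [add_dot]
    have h4 : |((dot Fib a.2.1 + dot f a.2.1 : ℤ) : ℝ)| ≤ ((2 * N : ℕ) : ℝ) := by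
      push_cast
      calc |y + x| ≤ |y| + |x| := abs_add_le _ _
        _ ≤ 2 * N := by linarith
    exact_mod_cast h4
  · have h4 : (2 : ℝ) * a.1 * ch2 a ≤ dot a.2.1 a.2.1 := by
      have h2 : ((a.1 * (2 * a.2.2 - 2 * a.1 - dot Fib a.2.1) : ℤ) : ℝ) ≤
        ((dot a.2.1 a.2.1 : ℤ) : ℝ) := by exact_mod_cast hb
      push_cast at h2
      unfold ch2
      linarith
    have h6 : -(B : ℝ) ≤ dot a.2.1 a.2.1 := by linarith
    exact_mod_cast h6
  · have e : (a.2.2 : ℝ) = ch2 a + a.1 + y / 2 := by unfold ch2; rw [← hy]; ring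
    have h4 := abs_le.1 hyN
    have h5 : 0 ≤ C * A := by positivity
    have h6 : A * (C + 2) = C * A + 2 * A := by ring
    rw [h6] at hZ
    refine ⟨?_, ?_⟩
    · have : -(Z : ℝ) ≤ a.2.2 := by rw [e]; linarith
      exact_mod_cast this
    · have : (a.2.2 : ℝ) ≤ Z := by rw [e]; linarith
      exact_mod_cast this

end

end Pool.Agent.H43.DP
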