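import Pool.Agent.H43.DP.Flow

/-!
Existence and uniqueness of the wall-crossing flow with given initial data.
-/

set_option autoImplicit false

open Finset

namespace Pool.Agent.H43.DP

section

variable {f : Pic} (hf : dot f f = 0) (hF : dot Fib f = 2)

include hf hF

/-- the ordered products of admissible coefficients agree at a class which is not admissible -/
lemma ordProd_trivial {s μ : ℝ} (h0 : 0 < s) (h1 : s < 1) {fi fo : Cls → K}
    (hi : ∀ b, fi b ≠ 0 → Adm f s μ b) (ho : ∀ b, fo b ≠ 0 → Adm f s μ b) {g : Cls}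
    (hg : ¬ Adm f s μ g) : ordProd 1 fi g = ordProd (-1) fo g := by
  classical
  rw [ordProd_def, ordProd_def]
  refine finsum_congr fun m => finsum_congr fun htot => ?_
  by_cases hm : m = 0
  · rw [hm]
    unfold term crossing
    simp
  · have : ∃ b ∈ m.support, ¬ Adm f s μ b := by
      by_contra hcon
      push Not at hcon
      have hmem := total_mem hf hF h0 h1 hcon
      rw [htot] at hmem
      rcases mem_admSub.1 hmem with hz | hz
      · obtain ⟨b, hb⟩ := Finsupp.support_nonempty_iff.2 hm
        have hr : 0 < (total m).1 := by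
          rw [rank_total]
          refine Finset.sum_pos (fun e he => ?_) ⟨b, hb⟩
          have h2 : 1 ≤ m e := Nat.one_le_iff_ne_zero.2 (Finsupp.mem_support_iff.1 he)
          exact mul_pos (by exact_mod_cast h2) (hcon e he).1
        rw [htot, hz] at hr
        exact lt_irrefl _ hr
      · exact hg hz
    obtain ⟨b, hb, hnb⟩ := this
    rw [term_eq_zero hb (by_contra fun h => hnb (hi b h)),
      term_eq_zero hb (by_contra fun h => hnb (ho b h))]

/-- The flow exists, and every coefficient is constant near `s = 1`. -/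
theorem exists_flow {c : Cls → K} (hc : ∀ a, c a ≠ 0 → Bog a) :
    ∃ inc out : ℝ → Cls → K, IsFlow f c inc out ∧ ∀ a, ∃ v, IsEnd out a v := by
  classical
  obtain ⟨D, hfix⟩ := Pool.Agent.H73.P2.exists_fix (fun x : ℝ × Cls => x.2.1.toNat) (Phi f c)
    (Phi_loc f c)
  refine ⟨incOf c D, outOf c D, ⟨?_, ?_, ?_, ?_⟩, ?_⟩
  · rintro s a (h | h)
    · exact inc_bog hf hF hc hfix h
    · exact out_bog hf hF hc hfix h
  · exact init hf hF hc hfix
  · intro s a h0 h1
    exact propag hf hF hc hfix s a h0 h1
  · intro s μ g h0 h1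
    set fi := onSlope f s μ (incOf c D s) with hfi
    set fo := onSlope f s μ (outOf c D s) with hfo
    have hi : ∀ b, fi b ≠ 0 → Adm f s μ b := by
      intro b hb
      obtain ⟨h2, h3⟩ := onSlope_ne hb
      obtain ⟨-, -, h4, h5⟩ := inc_bog hf hF hc hfix h3
      exact ⟨h4, h5, h2⟩
    have ho : ∀ b, fo b ≠ 0 → Adm f s μ b := by
      intro b hb
      obtain ⟨h2, h3⟩ := onSlope_ne hb
      obtain ⟨-, -, h4, h5⟩ := out_bog hf hF hc hfix h3
      exact ⟨h4, h5, h2⟩
    by_cases hg : Adm f s μ g
    · have hg0 : (0 : ℝ) < g.1 := by exact_mod_cast hg.1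
      have hμ : slopeAt f s g = μ := by
        unfold slopeAt
        rw [hg.2.2, mul_div_cancel_right₀ _ hg0.ne']
      have e1 : fi g = incOf c D s g := by
        rw [hfi]; unfold onSlope; rw [if_pos hg.2.2]
      have e2 : fo g = incOf c D s g + D (s, g) := by
        rw [hfo]; unfold onSlope; rw [if_pos hg.2.2, out_eq h0 h1]
      have e3 : D (s, g) = ordProd 1 (low g fi) g - ordProd (-1) (low g fo) g := by
        rw [hfix]
        unfold Phi
        rw [if_pos ⟨h0, h1, hg.1⟩]
        simp only []
        rw [hμ]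
      rw [tri_adm hf hF h0 h1 hi g, tri_adm hf hF h0 h1 ho g, e1, e2, e3]
      ring
    · exact ordProd_trivial hf hF h0 h1 hi ho hg
  · intro a
    obtain ⟨ε, hε, hgap⟩ := gap hf hF hc hfix a 1
    set δ := min ε (1 / 2) with hδ
    have d0 : 0 < δ := by positivity
    have d1 : δ ≤ ε := min_le_left _ _
    have d2 : δ ≤ 1 / 2 := min_le_right _ _
    have hz : ∀ v, 1 - δ < v → v < 1 → D (v, a) = 0 := by
      intro v hv hv'
      refine hgap v hv'.ne ?_
      rw [abs_lt]
      constructor <;> linarith
    refine ⟨outOf c D (1 - δ / 2) a, δ, d0, fun s hs hs' => ?_⟩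
    have key : ∀ s s', 1 - δ < s → s < s' → s' < 1 → outOf c D s' a = outOf c D s a := by
      intro s s' h2 h3 h4
      have e := inc_step hf hF hc hfix a (s := s) (s' := s') (by linarith) h3 h4
        fun v hv hv' => hz v (by linarith) (by linarith)
      rw [out_eq (by linarith) h4, e, hz s' (by linarith) h4, add_zero]
    rcases lt_trichotomy s (1 - δ / 2) with h | h | h
    · exact (key s (1 - δ / 2) hs h (by linarith)).symm
    · rw [h]
    · exact key (1 - δ / 2) s (by linarith) h hs'

omit hf hF in
/-- an induction along the path -/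
lemma path_induction {Good : ℝ → Prop} (hnear : ∃ ε > 0, ∀ s, 0 < s → s < ε → Good s)
    (hstep : ∀ s, 0 < s → s < 1 → (∀ u, 0 < u → u < s → Good u) → Good s)
    (hright : ∀ s, 0 < s → s < 1 → Good s → ∃ ε > 0, ∀ u, 0 < u → u < ε → Good (s + u)) :
    ∀ s, 0 < s → s < 1 → Good s := by
  intro s1 h0 h1
  by_contra hbad
  obtain ⟨ε0, hε0, hzero⟩ := hnear
  let S : Set ℝ := {s | 0 < s ∧ s ≤ s1 ∧ ¬ Good s}
  have hS1 : s1 ∈ S := ⟨h0, le_rfl, hbad⟩
  have hSb : ∀ s ∈ S, ε0 ≤ s := by
    rintro s ⟨hs, hs', hs''⟩
    by_contra hlt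
    push Not at hlt
    exact hs'' (hzero s hs hlt)
  have hbdd : BddBelow S := ⟨ε0, fun s hs => hSb s hs⟩
  set s0 := sInf S with hs0
  have hs0pos : 0 < s0 := lt_of_lt_of_le hε0 (le_csInf ⟨s1, hS1⟩ hSb)
  have hs0le : s0 ≤ s1 := csInf_le hbdd hS1
  have hs01 : s0 < 1 := lt_of_le_of_lt hs0le h1
  have hgood : ∀ s, 0 < s → s < s0 → Good s := by
    intro s hs hlt
    by_contra hc
    have : s ∈ S := ⟨hs, (hlt.le.trans hs0le), hc⟩
    exact absurd (csInf_le hbdd this) (not_le.2 hlt)
  have hg0 := hstep s0 hs0pos hs01 hgood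
  obtain ⟨ε, hε, hr⟩ := hright s0 hs0pos hs01 hg0
  obtain ⟨s, hsS, hslt⟩ := exists_lt_of_csInf_lt ⟨s1, hS1⟩
    (show sInf S < s0 + ε by rw [← hs0]; linarith)
  have hsge : s0 ≤ s := csInf_le hbdd hsS
  apply hsS.2.2
  rcases hsge.eq_or_lt with h | h
  · rw [← h]; exact hg0
  · have := hr (s - s0) (by linarith) (by linarith)
    rwa [add_sub_cancel] at this

/-- The flow is unique. -/
theorem flow_unique {c : Cls → K} {inc out inc' out' : ℝ → Cls → K} (hD : IsFlow f c inc out)
    (hD' : IsFlow f c inc' out') : inc = inc' ∧ out = out' := by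
  classical
  have key : ∀ (n : ℕ) (a : Cls), a.1.toNat = n → ∀ s, 0 < s → s < 1 →
      inc s a = inc' s a ∧ out s a = out' s a := by
    intro n
    induction n using Nat.strong_induction_on with
    | _ n ih =>
    intro a hn
    by_cases hr : 0 < a.1
    swap
    · intro s _ _
      have z1 : inc s a = 0 := by
        by_contra hne; exact hr (hD.support s a (Or.inl hne)).2.2.1
      have z2 : out s a = 0 := by
        by_contra hne; exact hr (hD.support s a (Or.inr hne)).2.2.1
      have z3 : inc' s a = 0 := by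
        by_contra hne; exact hr (hD'.support s a (Or.inl hne)).2.2.1
      have z4 : out' s a = 0 := by
        by_contra hne; exact hr (hD'.support s a (Or.inr hne)).2.2.1
      rw [z1, z2, z3, z4]
      exact ⟨rfl, rfl⟩
    refine path_induction (Good := fun s => inc s a = inc' s a ∧ out s a = out' s a) ?_ ?_ ?_
    · obtain ⟨ε, hε, h⟩ := hD.initial a
      obtain ⟨ε', hε', h'⟩ := hD'.initial a
      refine ⟨min ε ε', lt_min hε hε', fun s hs hs' => ?_⟩
      obtain ⟨k1, k2⟩ := h s hs (lt_of_lt_of_le hs' (min_le_left _ _))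
      obtain ⟨k3, k4⟩ := h' s hs (lt_of_lt_of_le hs' (min_le_right _ _))
      exact ⟨k1.trans k3.symm, k2.trans k4.symm⟩
    · intro s h0 h1 hgood
      have hin : inc s a = inc' s a := by
        obtain ⟨ε, hε, h⟩ := hD.propagation s a h0 h1
        obtain ⟨ε', hε', h'⟩ := hD'.propagation s a h0 h1
        set u := min (min (ε / 2) (ε' / 2)) (s / 2) with hu
        have u0 : 0 < u := by positivity
        have u1 : u < ε := by
          have : u ≤ ε / 2 := (min_le_left _ _).trans (min_le_left _ _)
          linarith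
        have u2 : u < ε' := by
          have : u ≤ ε' / 2 := (min_le_left _ _).trans (min_le_right _ _)
          linarith
        have u3 : u < s := by
          have : u ≤ s / 2 := min_le_right _ _
          linarith
        rw [← (h u u0 u1).2.1, ← (h' u u0 u2).2.1]
        exact (hgood (s - u) (by linarith) (by linarith)).1
      refine ⟨hin, ?_⟩
      have hrR : (0 : ℝ) < a.1 := by exact_mod_cast hr
      set μ : ℝ := slopeAt f s a with hμ
      have hμa : jdeg f s a.2.1 = μ * a.1 := by
        rw [hμ]; unfold slopeAt; rw [div_mul_cancel₀ _ hrR.ne']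
      have hadm : ∀ (x : Cls → K), (∀ b, x b ≠ 0 → Bog b) → ∀ b, onSlope f s μ x b ≠ 0 →
          Adm f s μ b := by
        intro x hx b hb
        obtain ⟨h2, h3⟩ := onSlope_ne hb
        obtain ⟨h4, h5⟩ := hx b h3
        exact ⟨h4, h5, h2⟩
      have t1 := tri_adm hf hF h0 h1 (ε := 1)
        (hadm (inc s) fun b hb => (hD.support s b (Or.inl hb)).2.2) a
      have t2 := tri_adm hf hF h0 h1 (ε := -1)
        (hadm (out s) fun b hb => (hD.support s b (Or.inr hb)).2.2) a
      have t3 := tri_adm hf hF h0 h1 (ε := 1)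
        (hadm (inc' s) fun b hb => (hD'.support s b (Or.inl hb)).2.2) a
      have t4 := tri_adm hf hF h0 h1 (ε := -1)
        (hadm (out' s) fun b hb => (hD'.support s b (Or.inr hb)).2.2) a
      have w1 := hD.wallCrossing s μ a h0 h1
      have w2 := hD'.wallCrossing s μ a h0 h1
      have hlow : ∀ b : Cls, b.1 < a.1 → inc s b = inc' s b ∧ out s b = out' s b :=
        fun b hb => ih b.1.toNat (by omega) b rfl s h0 h1
      have l1 : low a (onSlope f s μ (inc s)) = low a (onSlope f s μ (inc' s)) := by
        funext b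
        unfold low
        split_ifs with hb
        · unfold onSlope; rw [(hlow b hb).1]
        · rfl
      have l2 : low a (onSlope f s μ (out s)) = low a (onSlope f s μ (out' s)) := by
        funext b
        unfold low
        split_ifs with hb
        · unfold onSlope; rw [(hlow b hb).2]
        · rfl
      have o1 : onSlope f s μ (out s) a = out s a := by unfold onSlope; rw [if_pos hμa]
      have o2 : onSlope f s μ (out' s) a = out' s a := by unfold onSlope; rw [if_pos hμa]
      have o3 : onSlope f s μ (inc s) a = inc s a := by unfold onSlope; rw [if_pos hμa]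
      have o4 : onSlope f s μ (inc' s) a = inc' s a := by unfold onSlope; rw [if_pos hμa]
      rw [o3] at t1
      rw [o1] at t2
      rw [o4] at t3
      rw [o2] at t4
      rw [t1, t2, hin, l1, l2] at w1
      rw [t3, t4] at w2
      have := w1.symm.trans w2
      exact add_right_cancel this
    · intro s h0 h1 hg
      obtain ⟨ε, hε, h⟩ := hD.propagation s a h0 h1
      obtain ⟨ε', hε', h'⟩ := hD'.propagation s a h0 h1
      refine ⟨min ε ε', lt_min hε hε', fun u hu hu' => ?_⟩
      obtain ⟨k1, k2⟩ := (h u hu (lt_of_lt_of_le hu' (min_le_left _ _))).1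
      obtain ⟨k3, k4⟩ := (h' u hu (lt_of_lt_of_le hu' (min_le_right _ _))).1
      show inc (s + u) a = inc' (s + u) a ∧ out (s + u) a = out' (s + u) a
      rw [k1, k2, k3, k4]
      exact ⟨hg.2, hg.2⟩
  have hzero : ∀ {inc out : ℝ → Cls → K}, IsFlow f c inc out → ∀ s, ¬ (0 < s ∧ s < 1) → ∀ a,
      inc s a = 0 ∧ out s a = 0 := by
    intro inc out hD s hs a
    constructor
    · by_contra hne
      have := hD.support s a (Or.inl hne)
      exact hs ⟨this.1, this.2.1⟩
    · by_contra hne
      have := hD.support s a (Or.inr hne)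
      exact hs ⟨this.1, this.2.1⟩
  constructor
  · funext s a
    by_cases hs : 0 < s ∧ s < 1
    · exact (key _ a rfl s hs.1 hs.2).1
    · rw [(hzero hD s hs a).1, (hzero hD' s hs a).1]
  · funext s a
    by_cases hs : 0 < s ∧ s < 1
    · exact (key _ a rfl s hs.1 hs.2).2
    · rw [(hzero hD s hs a).2, (hzero hD' s hs a).2]

end

end Pool.Agent.H43.DP
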