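import Pool.Agent.H43.DP.Lattice
import Pool.Agent.H73.P2.Glob

/-!
Orders at a point `η`: the filtration attached to a class `γ` which is central at `η`, and integrality.
-/

set_option autoImplicit false

open Finset Polynomial

namespace Pool.Agent.H43.DP

open Pool.Agent.H73.P2 (Kf mul_mem_Kf Kf_mono tpow_mem lam_mem lam_mem_one rayCoeff rayCoeff_mem)

lemma t_eq' : t = Pool.Agent.H73.P2.t := rfl

lemma t_ne : t ≠ 0 := Pool.Agent.H73.P2.t_ne_zero

/-- divisibility by `ℓ` -/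
def Dv (ℓ : ℤ) (a : Cls) : Prop := ∃ b : Cls, a = ℓ • b

lemma Dv.add {ℓ : ℤ} {a b : Cls} (ha : Dv ℓ a) (hb : Dv ℓ b) : Dv ℓ (a + b) := by
  obtain ⟨x, rfl⟩ := ha
  obtain ⟨y, rfl⟩ := hb
  exact ⟨x + y, (smul_add _ _ _).symm⟩

lemma Dv.sub {ℓ : ℤ} {a b : Cls} (ha : Dv ℓ a) (hb : Dv ℓ b) : Dv ℓ (a - b) := by
  obtain ⟨x, rfl⟩ := ha
  obtain ⟨y, rfl⟩ := hb
  exact ⟨x - y, (smul_sub _ _ _).symm⟩

open Classical in
/-- the prescribed order at `η` of the coefficient of `z^a` -/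
noncomputable def typ (ℓ : ℤ) (γ a : Cls) : ℤ :=
  if Dv ℓ a then -1 else if Dv ℓ (a - γ) then 1 else 0

lemma pair_dvd_left {ℓ : ℤ} {a : Cls} (h : Dv ℓ a) (b : Cls) : ℓ ∣ pair a b := by
  obtain ⟨x, rfl⟩ := h
  rw [← pairHom_apply, map_zsmul, AddMonoidHom.smul_apply, smul_eq_mul]
  exact dvd_mul_right _ _

lemma pair_dvd_right {ℓ : ℤ} {b : Cls} (h : Dv ℓ b) (a : Cls) : ℓ ∣ pair a b := by
  obtain ⟨x, rfl⟩ := h
  rw [← pairHom_apply, map_zsmul, smul_eq_mul]
  exact dvd_mul_right _ _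

/-- closure of the filtration under brackets -/
lemma typ_add {ℓ : ℤ} {γ : Cls} (hγ : ∀ a, ℓ ∣ pair a γ) (a b : Cls) :
    (typ ℓ γ (a + b) ≤ typ ℓ γ a + typ ℓ γ b) ∨
      (ℓ ∣ pair a b ∧ typ ℓ γ (a + b) ≤ typ ℓ γ a + typ ℓ γ b + 1) := by
  classical
  by_cases ha : Dv ℓ a
  · right
    refine ⟨pair_dvd_left ha b, ?_⟩
    have ta : typ ℓ γ a = -1 := by unfold typ; rw [if_pos ha]
    have tab : typ ℓ γ (a + b) = typ ℓ γ b := by
      unfold typ
      have e1 : Dv ℓ (a + b) ↔ Dv ℓ b := by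
        constructor
        · intro h
          have := h.sub ha
          rwa [add_sub_cancel_left] at this
        · intro h; exact ha.add h
      have e2 : Dv ℓ (a + b - γ) ↔ Dv ℓ (b - γ) := by
        constructor
        · intro h
          have := h.sub ha
          rwa [show a + b - γ - a = b - γ by abel] at this
        · intro h
          have := ha.add h
          rwa [show a + (b - γ) = a + b - γ by abel] at this
      exact if_congr e1 rfl (if_congr e2 rfl rfl)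
    rw [ta, tab]; linarith
  by_cases hb : Dv ℓ b
  · right
    refine ⟨pair_dvd_right hb a, ?_⟩
    have tb : typ ℓ γ b = -1 := by unfold typ; rw [if_pos hb]
    have tab : typ ℓ γ (a + b) = typ ℓ γ a := by
      unfold typ
      have e1 : Dv ℓ (a + b) ↔ Dv ℓ a := by
        constructor
        · intro h
          have := h.sub hb
          rwa [add_sub_cancel_right] at this
        · intro h; exact h.add hb
      have e2 : Dv ℓ (a + b - γ) ↔ Dv ℓ (a - γ) := by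
        constructor
        · intro h
          have := h.sub hb
          rwa [show a + b - γ - b = a - γ by abel] at this
        · intro h
          have := h.add hb
          rwa [show (a - γ) + b = a + b - γ by abel] at this
      exact if_congr e1 rfl (if_congr e2 rfl rfl)
    rw [tb, tab]; linarith
  have hna : 0 ≤ typ ℓ γ a := by
    unfold typ; rw [if_neg ha]; split_ifs <;> norm_num
  have hnb : 0 ≤ typ ℓ γ b := by
    unfold typ; rw [if_neg hb]; split_ifs <;> norm_num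
  by_cases hab : Dv ℓ (a + b)
  · left
    have : typ ℓ γ (a + b) = -1 := by unfold typ; rw [if_pos hab]
    linarith
  by_cases habγ : Dv ℓ (a + b - γ)
  · right
    have : typ ℓ γ (a + b) = 1 := by unfold typ; rw [if_neg hab, if_pos habγ]
    refine ⟨?_, by linarith⟩
    have e : pair a b = pair a (a + b - γ) + pair a γ := by
      rw [← pairHom_apply, ← pairHom_apply, ← pairHom_apply, ← map_add, sub_add_cancel, map_add,
        pairHom_self, zero_add]
    rw [e]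
    exact dvd_add (pair_dvd_right habγ a) (hγ a)
  · left
    have : typ ℓ γ (a + b) = 0 := by unfold typ; rw [if_neg hab, if_neg habγ]
    linarith

/-- the filtered pieces -/
noncomputable def Mo (η : ℂ) (ℓ : ℤ) (γ a : Cls) : Submodule ℂ K := Kf η (typ ℓ γ a)

lemma Mo_closed {η : ℂ} (hη : η ≠ 0) {ℓ : ℤ} (hℓ : ∀ n : ℤ, ℓ ∣ n → η ^ (2 * n) = 1) {γ : Cls}
    (hγ : ∀ a, ℓ ∣ pair a γ) (a b : Cls) :
    ∀ c ∈ Mo η ℓ γ a, ∀ c' ∈ Mo η ℓ γ b,
      c * c' * (t ^ (pair a b) - t ^ (-pair a b)) ∈ Mo η ℓ γ (a + b) := by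
  intro c hc c' hc'
  rcases typ_add hγ a b with h | ⟨hd, h⟩
  · have h1 := mul_mem_Kf (mul_mem_Kf hc hc') (lam_mem hη (pair a b))
    refine Kf_mono ?_ h1
    linarith
  · have h1 := mul_mem_Kf (mul_mem_Kf hc hc') (lam_mem_one hη (hℓ _ hd))
    exact Kf_mono h h1

lemma inv_mem {η : ℂ} (hη : η ≠ 0) {k : ℕ} (hk : 0 < k) :
    (t ^ k - (t ^ k)⁻¹)⁻¹ ∈ Kf η (-1) ∧ (η ^ (2 * k) ≠ 1 → (t ^ k - (t ^ k)⁻¹)⁻¹ ∈ Kf η 0) := by
  obtain ⟨h1, h2⟩ := rayCoeff_mem hk hη
  have hk0 : ((k : ℕ) : K) ≠ 0 := by exact_mod_cast hk.ne'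
  have e : (t ^ k - (t ^ k)⁻¹)⁻¹ = ((-1) ^ (k + 1) * (k : ℂ)) • rayCoeff k := by
    rw [Pool.Agent.H73.P2.smul_eq]
    unfold rayCoeff
    rw [← t_eq']
    have e2 : (algebraMap ℂ[X] K) (C ((-1) ^ (k + 1) * (k : ℂ))) = (-1) ^ (k + 1) * (k : K) := by
      simp
    have e3 : ((-1 : K) ^ (k + 1)) * (-1) ^ (k + 1) = 1 := by
      rw [← mul_pow]; norm_num
    rw [e2, div_eq_mul_inv, mul_inv]
    calc (t ^ k - (t ^ k)⁻¹)⁻¹ = (((-1 : K) ^ (k + 1)) * (-1) ^ (k + 1)) * ((k : K) * (k : K)⁻¹) *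
          (t ^ k - (t ^ k)⁻¹)⁻¹ := by rw [e3, mul_inv_cancel₀ hk0]; ring
      _ = _ := by ring
  rw [e]
  exact ⟨(Kf η (-1)).smul_mem _ h1, fun h => (Kf η 0).smul_mem _ (h2 h)⟩

/-- integrality gives the orders -/
lemma dt_mem {η : ℂ} (hη : η ≠ 0) {ℓ : ℤ} (hℓ : ∀ n : ℤ, η ^ (2 * n) = 1 → ℓ ∣ n) {a : Cls} {c : K}
    (h : IsDT a c) : c ∈ Kf η (-1) ∧ (¬ Dv ℓ a → c ∈ Kf η 0) := by
  classical
  obtain ⟨n, p, rfl⟩ := h
  have e : ∀ k : ℕ, algebraMap ℂ[X] K (p k) / (t ^ n * (t ^ k - (t ^ k)⁻¹)) =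
      algebraMap ℂ[X] K (p k) * t ^ (-(n : ℤ)) * (t ^ k - (t ^ k)⁻¹)⁻¹ := by
    intro k
    rw [div_eq_mul_inv, mul_inv, zpow_neg, zpow_natCast, mul_assoc]
  have hp : ∀ k : ℕ, algebraMap ℂ[X] K (p k) * t ^ (-(n : ℤ)) ∈ Kf η 0 := by
    intro k
    have := mul_mem_Kf (Pool.Agent.H73.P2.ι_mem (η := η) (p k)) (tpow_mem hη (-(n : ℤ)))
    rw [zero_add] at this
    exact this
  constructor
  · refine Submodule.sum_mem _ fun k hk => ?_
    rw [Finset.mem_filter, Finset.mem_Icc] at hk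
    rw [e]
    have := mul_mem_Kf (hp k) (inv_mem hη hk.1.1).1
    rw [zero_add] at this
    exact this
  · intro hna
    refine Submodule.sum_mem _ fun k hk => ?_
    rw [Finset.mem_filter, Finset.mem_Icc] at hk
    rw [e]
    have hne : η ^ (2 * k) ≠ 1 := by
      intro h1
      have h2 : ℓ ∣ (k : ℤ) := by
        apply hℓ
        rw [← h1, ← zpow_natCast]
        congr 1
      obtain ⟨m, hm⟩ := h2
      obtain ⟨b, hb⟩ := hk.2
      apply hna
      refine ⟨m • b, ?_⟩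
      rw [smul_smul, ← hm, hb]
      exact (natCast_zsmul _ _).symm
    have := mul_mem_Kf (hp k) ((inv_mem hη hk.1.1).2 hne)
    rw [zero_add] at this
    exact this

end Pool.Agent.H43.DP
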