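import Pool.Agent.H43.DP.Lattice

/-!
Rulings: for every class `β` there is a ruling `f` such that no `ℓ ≥ 3` divides both `F · β` and
`f · (β + F)`.
-/

set_option autoImplicit false

open Finset

namespace Pool.Agent.H43.DP

lemma dot_line (i : Fin 9) (D : Pic) : dot (1, Pi.single i 1) D = D.1 - D.2 i := by
  unfold dot
  simp [Pi.single_apply]

lemma dot_conic (D : Pic) : dot (2, ![1, 1, 1, 1, 0, 0, 0, 0, 0]) D =
    2 * D.1 - (D.2 0 + D.2 1 + D.2 2 + D.2 3) := by
  unfold dot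
  simp [Fin.sum_univ_succ]
  ring

/-- The rulings used: the classes `H - eᵢ` and `2 H - e₁ - e₂ - e₃ - e₄`. -/
def rulings : Set Pic :=
  {f | (∃ i : Fin 9, f = (1, Pi.single i 1)) ∨ f = (2, ![1, 1, 1, 1, 0, 0, 0, 0, 0])}

lemma ruling_sq {f : Pic} (hf : f ∈ rulings) : dot f f = 0 ∧ dot Fib f = 2 := by
  rcases hf with ⟨i, rfl⟩ | rfl
  · rw [dot_line, dot_comm, dot_line]
    simp [Fib]
  · rw [dot_conic, dot_comm, dot_conic]
    simp [Fib]

lemma fib_sec : dot Fib ((0, Pi.single 8 1) : Pic) = -1 := by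
  unfold dot Fib
  simp

lemma fm_pair (β : Pic) (a : Cls) : dot Fib β ∣ pair a (fmClass β) := by
  have h : dot Fib (β + Fib + dot Fib β • ((0, Pi.single 8 1) : Pic)) = 0 := by
    rw [dot_add, dot_add, dot_zsmul, fib_sq, fib_sec]
    ring
  unfold pair fmClass
  simp only [h, mul_zero, zero_sub]
  exact (dvd_mul_right _ _).neg_right

lemma dot_fm (f β : Pic) : dot f (fmClass β).2.1 = dot f (β + Fib) +
    dot Fib β * dot f ((0, Pi.single 8 1) : Pic) := by
  unfold fmClass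
  simp only [dot_add, dot_zsmul]

/-- isotropic vectors orthogonal to `F` -/
lemma isotropic {x : Pic} (hx : dot x x = 0) (hF : dot Fib x = 0) : ∃ b : ℤ, x = b • Fib := by
  have hf0 := ruling_sq (f := (1, Pi.single 0 1)) (Or.inl ⟨0, rfl⟩)
  have orth : ∀ y : Pic, dot Fib y = 0 → dot x y = 0 := by
    intro y hy
    by_contra hne
    set m := dot x y with hm
    have h := hodge hf0.1 hf0.2 ((m * (1 + |dot y y|)) • x + y)
    have e1 : dot Fib ((m * (1 + |dot y y|)) • x + y) = 0 := by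
      rw [dot_add, dot_zsmul, hF, hy]; ring
    have e2 : dot ((m * (1 + |dot y y|)) • x + y) ((m * (1 + |dot y y|)) • x + y) =
        2 * (m ^ 2 * (1 + |dot y y|)) + dot y y := by
      simp only [dot_add, add_dot, dot_zsmul, zsmul_dot, hx, dot_comm y x, ← hm]
      ring
    rw [e1, e2, mul_zero] at h
    have h1 : 1 ≤ m ^ 2 := by
      have := Int.one_le_abs hne
      rw [← sq_abs]
      nlinarith
    have h2 := neg_abs_le (dot y y)
    have h3 := abs_nonneg (dot y y)
    nlinarith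
  have hij : ∀ i j : Fin 9, x.2 i = x.2 j := by
    intro i j
    have h := orth (0, Pi.single i 1 - Pi.single j 1) (by
      unfold dot Fib
      simp [Pi.single_apply])
    unfold dot at h
    simp [Pi.single_apply, mul_sub] at h
    linarith
  have hH := orth (1, ![1, 1, 1, 0, 0, 0, 0, 0, 0]) (by
    unfold dot Fib
    simp [Fin.sum_univ_succ])
  have hx1 : x.1 = 3 * x.2 0 := by
    unfold dot at hH
    simp [Fin.sum_univ_succ] at hH
    have h1 := hij 1 0
    have h2 := hij 2 0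
    linarith
  refine ⟨x.2 0, ?_⟩
  refine Prod.ext ?_ ?_
  · rw [hx1]; show 3 * x.2 0 = x.2 0 * 3; ring
  · funext i
    show x.2 i = x.2 0 * 1
    rw [mul_one]
    exact hij i 0

/-- the classes not congruent to `F` modulo two are nef -/
lemma isRuling_of {f : Pic} (hf : dot f f = 0) (hF : dot Fib f = 2)
    (hpar : ¬ ∃ x : Pic, f = Fib + (2 : ℤ) • x) : IsRuling f := by
  refine ⟨hf, hF, fun e he hFe => ?_⟩
  have h1 := hodge hf hF e
  rw [he, hFe, mul_one] at h1
  by_contra hneg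
  push Not at hneg
  have hfe : dot f e = -1 := by omega
  have hF' : dot f Fib = 2 := by rw [dot_comm]; exact hF
  obtain ⟨b, hb⟩ := isotropic (x := (2 : ℤ) • e - f) (by
    simp only [dot_sub, sub_dot, dot_zsmul, zsmul_dot, he, hf, dot_comm e f, hfe]
    norm_num) (by
    rw [dot_sub, dot_zsmul, hFe, hF]; norm_num)
  have h2 : dot f ((2 : ℤ) • e - f) = -2 := by
    rw [dot_sub, dot_zsmul, hfe, hf]; norm_num
  rw [hb, dot_zsmul, hF'] at h2
  have hb1 : b = -1 := by omega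
  apply hpar
  refine ⟨e, ?_⟩
  rw [hb1] at hb
  have : f = (2 : ℤ) • e - ((2 : ℤ) • e - f) := by abel
  rw [this, hb]
  simp [sub_eq_add_neg, add_comm]

lemma isRuling_mem {f : Pic} (hf : f ∈ rulings) : IsRuling f := by
  obtain ⟨h1, h2⟩ := ruling_sq hf
  refine isRuling_of h1 h2 ?_
  rintro ⟨x, hx⟩
  rcases hf with ⟨i, rfl⟩ | rfl
  · have h3 : ∃ j : Fin 9, j ≠ i := by
      by_cases h : i = 0
      · exact ⟨1, by rw [h]; decide⟩
      · exact ⟨0, fun h' => h h'.symm⟩
    obtain ⟨j, hj⟩ := h3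
    have e := congrFun (congrArg Prod.snd hx) j
    have e1 : (Pi.single i 1 : Fin 9 → ℤ) j = 0 := Pi.single_eq_of_ne hj 1
    have e2 : (Fib + (2 : ℤ) • x).2 j = 1 + 2 * x.2 j := rfl
    rw [e2] at e
    have e3 : ((1 : ℤ), (Pi.single i 1 : Fin 9 → ℤ)).2 j = 0 := e1
    rw [e3] at e
    omega
  · have e := congrArg Prod.fst hx
    have e2 : (Fib + (2 : ℤ) • x).1 = 3 + 2 * x.1 := rfl
    rw [e2] at e
    simp only [] at e
    omega

/-- translation by twice a vector orthogonal to `F` -/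
def tr (f v : Pic) : Pic := f + (2 : ℤ) • v - (dot f v + dot v v) • Fib

lemma tr_ruling {f v : Pic} (hf : IsRuling f) (hv : dot Fib v = 0) : IsRuling (tr f ((2 : ℤ) • v)) := by
  obtain ⟨h1, h2, h3⟩ := hf
  have h2' : dot f Fib = 2 := by rw [dot_comm]; exact h2
  have hv' : dot v Fib = 0 := by rw [dot_comm]; exact hv
  refine ⟨?_, ?_, ?_⟩
  · unfold tr
    simp only [dot_add, add_dot, dot_sub, sub_dot, dot_zsmul, zsmul_dot, h1, h2, h2', hv, hv', fib_sq,
      dot_comm v f]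
    ring
  · unfold tr
    simp only [dot_add, dot_sub, dot_zsmul, h2, hv, fib_sq]
    ring
  · intro e he hFe
    have hFe' : dot e Fib = 1 := by rw [dot_comm]; exact hFe
    have h4 := h3 (e - (2 : ℤ) • v - (2 * dot v v - 2 * dot v e) • Fib) (by
      simp only [dot_sub, sub_dot, dot_zsmul, zsmul_dot, he, hFe, hFe', hv, hv', fib_sq, dot_comm e v]
      ring) (by
      simp only [dot_sub, dot_zsmul, hFe, hv, fib_sq]
      ring)
    have e1 : dot f (e - (2 : ℤ) • v - (2 * dot v v - 2 * dot v e) • Fib) =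
        dot (tr f ((2 : ℤ) • v)) e := by
      unfold tr
      simp only [dot_sub, sub_dot, add_dot, dot_zsmul, zsmul_dot, h2', hFe]
      ring
    rwa [e1] at h4

lemma tr_dot {f v β : Pic} : dot (tr f ((2 : ℤ) • v)) β =
    dot f β + 4 * dot v β - (2 * dot f v + 4 * dot v v) * dot Fib β := by
  unfold tr
  simp only [sub_dot, add_dot, dot_zsmul, zsmul_dot]
  ring

/-- for `ℓ ≥ 3` some ruling works for `ℓ` -/
lemma exists_ruling {β : Pic} (hβ : β.2 8 = 0) {ℓ : ℤ} (hℓ : 3 ≤ ℓ) :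
    ∃ f ∈ rulings, ¬ ℓ ∣ dot f β + 2 := by
  by_contra hcon
  push Not at hcon
  have hline : ∀ i : Fin 9, ℓ ∣ β.1 - β.2 i + 2 := by
    intro i
    have := hcon _ (Or.inl ⟨i, rfl⟩)
    rwa [dot_line] at this
  have h8 := hline 8
  rw [hβ, sub_zero] at h8
  have hall : ∀ i : Fin 9, ℓ ∣ β.2 i := by
    intro i
    have := dvd_sub h8 (hline i)
    rwa [show β.1 + 2 - (β.1 - β.2 i + 2) = β.2 i by ring] at this
  have hc := hcon _ (Or.inr rfl)
  rw [dot_conic] at hc
  have h9 : ℓ ∣ β.2 0 + β.2 1 + β.2 2 + β.2 3 :=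
    dvd_add (dvd_add (dvd_add (hall 0) (hall 1)) (hall 2)) (hall 3)
  have h10 := dvd_add hc h9
  have h11 := dvd_sub (Dvd.dvd.mul_left h8 2) h10
  rw [show 2 * (β.1 + 2) - (2 * β.1 - (β.2 0 + β.2 1 + β.2 2 + β.2 3) + 2 +
    (β.2 0 + β.2 1 + β.2 2 + β.2 3)) = 2 by ring] at h11
  have := Int.le_of_dvd (by norm_num) h11
  omega

/-- a generator of the products of `β` with the orthogonal of `F` -/
lemma exists_gen (β : Pic) : ∃ v : Pic, dot Fib v = 0 ∧ ∀ u, dot Fib u = 0 → dot v β ∣ dot u β := by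
  let S : AddSubgroup ℤ :=
    { carrier := {n | ∃ u, dot Fib u = 0 ∧ dot u β = n}
      zero_mem' := ⟨0, dot_zero _, by rw [dot_comm, dot_zero]⟩
      add_mem' := by
        rintro _ _ ⟨u, hu, rfl⟩ ⟨u', hu', rfl⟩
        exact ⟨u + u', by rw [dot_add, hu, hu', add_zero], add_dot _ _ _⟩
      neg_mem' := by
        rintro _ ⟨u, hu, rfl⟩
        exact ⟨(-1 : ℤ) • u, by rw [dot_zsmul, hu, mul_zero], by rw [zsmul_dot]; ring⟩ }
  obtain ⟨h, hS⟩ := Int.subgroup_cyclic S
  have hmem : h ∈ S := by rw [hS]; exact AddSubgroup.subset_closure rfl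
  obtain ⟨v, hv, hvh⟩ := hmem
  refine ⟨v, hv, fun u hu => ?_⟩
  have hu' : dot u β ∈ S := ⟨u, hu, rfl⟩
  rw [hS, ← AddSubgroup.zmultiples_eq_closure, Int.mem_zmultiples_iff] at hu'
  rwa [hvh]

/-- if a prime divides all the products of `β` with the orthogonal of `F` then it divides `β` -/
lemma dvd_coord {β : Pic} (hβ : β.2 8 = 0) {p : ℤ} (h : ∀ u, dot Fib u = 0 → p ∣ dot u β) :
    p ∣ β.1 ∧ ∀ i, p ∣ β.2 i := by
  have h1 : ∀ i : Fin 9, p ∣ β.2 i := by
    intro i
    have := h (0, Pi.single 8 1 - Pi.single i 1) (by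
      unfold dot Fib
      simp [Pi.single_apply])
    have e : dot (0, Pi.single 8 1 - Pi.single i 1) β = β.2 i := by
      unfold dot
      simp [Pi.single_apply, sub_mul, hβ]
    rwa [e] at this
  refine ⟨?_, h1⟩
  have := h (1, ![1, 1, 1, 0, 0, 0, 0, 0, 0]) (by
    unfold dot Fib
    simp [Fin.sum_univ_succ])
  have e : dot (1, ![1, 1, 1, 0, 0, 0, 0, 0, 0]) β = β.1 - (β.2 0 + β.2 1 + β.2 2) := by
    unfold dot
    simp [Fin.sum_univ_succ]
    ring
  rw [e] at this
  exact (dvd_sub_left (dvd_add (dvd_add (h1 0) (h1 1)) (h1 2))).1 this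

lemma odd_or_four {n : ℕ} (hn : 3 ≤ n) : (∃ p : ℕ, p.Prime ∧ p ≠ 2 ∧ p ∣ n) ∨ 4 ∣ n := by
  by_contra hcon
  push Not at hcon
  obtain ⟨h1, h2⟩ := hcon
  have h3 := Nat.eq_prime_pow_of_unique_prime_dvd (n := n) (p := 2) (by omega) (by
    intro d hd hdn
    by_contra hne
    exact h1 d hd hne hdn)
  set k := n.primeFactorsList.length
  have hk : 2 ≤ k := by
    by_contra hlt
    push Not at hlt
    interval_cases k
    · simp at h3; omega
    · simp at h3; omega
  apply h2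
  rw [h3]
  exact pow_dvd_pow 2 hk

/-- The choice of the ruling. -/
theorem exists_good {β : Pic} (hβ : β.2 8 = 0) (hw0 : 0 < dot Fib β) :
    ∃ f, IsRuling f ∧ ∀ ℓ : ℤ, 3 ≤ ℓ → ℓ ∣ dot Fib β → ¬ ℓ ∣ dot f (β + Fib) := by
  classical
  obtain ⟨f0, hf0, h4⟩ := exists_ruling hβ (ℓ := 4) (by norm_num)
  have hr := isRuling_mem hf0
  obtain ⟨v, hv, hgen⟩ := exists_gen β
  set w := dot Fib β with hw
  set x0 := dot f0 β + 2 with hx0
  set k : ℕ := ∏ p ∈ w.natAbs.primeFactors.filter (fun p : ℕ => ¬ (p : ℤ) ∣ x0), p with hk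
  set u : Pic := (k : ℤ) • v with hu
  have hFu : dot Fib u = 0 := by rw [hu, dot_zsmul, hv, mul_zero]
  set f := tr f0 ((2 : ℤ) • u) with hf
  have hfr : IsRuling f := tr_ruling hr hFu
  refine ⟨f, hfr, fun ℓ hℓ hℓw hdvd => ?_⟩
  have hval : dot f (β + Fib) = x0 + 4 * (k * dot v β) - (2 * dot f0 u + 4 * dot u u) * w := by
    rw [dot_add, dot_comm f Fib, hfr.2.1, hf, tr_dot, hu, zsmul_dot, hx0]
    ring
  have hdvd2 : ∀ m : ℤ, m ∣ ℓ → m ∣ x0 + 4 * (k * dot v β) := by
    intro m hm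
    have h5 : m ∣ dot f (β + Fib) := hm.trans hdvd
    rw [hval] at h5
    exact (dvd_sub_left (Dvd.dvd.mul_left (hm.trans hℓw) _)).1 h5
  obtain ⟨n, rfl⟩ := Int.eq_ofNat_of_zero_le (by omega : 0 ≤ ℓ)
  rcases odd_or_four (n := n) (by omega) with ⟨p, hp, hp2, hpn⟩ | h
  · have hpp : Prime (p : ℤ) := Nat.prime_iff_prime_int.1 hp
    have h6 := hdvd2 p (by exact_mod_cast hpn)
    have hpw : (p : ℤ) ∣ w := dvd_trans (by exact_mod_cast hpn) hℓw
    by_cases hpx : (p : ℤ) ∣ x0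
    · have h7 : (p : ℤ) ∣ 4 * (k * dot v β) := (dvd_add_right hpx).1 h6
      have hp4 : ¬ (p : ℤ) ∣ 4 := by
        intro h8
        have h9 : p ∣ 4 := by exact_mod_cast h8
        have h10 : p ∣ 2 := by
          have : p ∣ 2 ^ 2 := by norm_num; exact h9
          exact hp.dvd_of_dvd_pow this
        exact hp2 ((Nat.prime_dvd_prime_iff_eq hp Nat.prime_two).1 h10)
      have hpk : ¬ (p : ℤ) ∣ k := by
        intro h8
        have h9 : p ∣ k := by exact_mod_cast h8
        rw [hk] at h9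
        obtain ⟨q, hq, hpq⟩ := (Prime.dvd_finsetProd_iff hp.prime _).1 h9
        rw [Finset.mem_filter] at hq
        have h10 := (Nat.prime_dvd_prime_iff_eq hp (Nat.prime_of_mem_primeFactors hq.1)).1 hpq
        rw [← h10] at hq
        exact hq.2 hpx
      have h8 : (p : ℤ) ∣ dot v β := by
        rcases hpp.dvd_or_dvd h7 with h | h
        · exact absurd h hp4
        · rcases hpp.dvd_or_dvd h with h | h
          · exact absurd h hpk
          · exact h
      obtain ⟨h9, h10⟩ := dvd_coord hβ (p := (p : ℤ)) fun u hu => h8.trans (hgen u hu)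
      have h11 : (p : ℤ) ∣ dot f0 β := by
        rcases hf0 with ⟨i, rfl⟩ | rfl
        · rw [dot_line]; exact dvd_sub h9 (h10 i)
        · rw [dot_conic]
          exact dvd_sub (Dvd.dvd.mul_left h9 _)
            (dvd_add (dvd_add (dvd_add (h10 0) (h10 1)) (h10 2)) (h10 3))
      have h12 : (p : ℤ) ∣ 2 := (dvd_add_right h11).1 hpx
      have h13 : p ∣ 2 := by exact_mod_cast h12
      exact hp2 ((Nat.prime_dvd_prime_iff_eq hp Nat.prime_two).1 h13)
    · have hpk : (p : ℤ) ∣ k := by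
        have : p ∣ k := by
          rw [hk]
          refine Finset.dvd_prod_of_mem (fun q => q) ?_
          rw [Finset.mem_filter]
          refine ⟨?_, hpx⟩
          rw [Nat.mem_primeFactors]
          refine ⟨hp, ?_, ?_⟩
          · exact Int.natCast_dvd.1 hpw
          · omega
        exact_mod_cast this
      exact hpx ((dvd_add_left (Dvd.dvd.mul_left (Dvd.dvd.mul_right hpk _) _)).1 h6)
  · have h6 := hdvd2 4 (by exact_mod_cast h)
    exact h4 ((dvd_add_left (dvd_mul_right _ _)).1 h6)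

end Pool.Agent.H43.DP
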