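import Pool.Agent.H43.DP.Path
import Pool.Agent.H43.DP.Ruling

/-!
Roots of unity: vanishing, the order two.
-/

set_option autoImplicit false

open Polynomial

namespace Pool.Agent.H43.DP

open Pool.Agent.H73.P2 (Kf mul_mem_Kf Kf_mono tpow_mem lam_mem eval_eq_zero ι ι_inj t_eq t_ne_zero)

lemma aeval_eq (Q : ℤ[X]) : (aeval (t ^ 2) Q : K) =
    ι ((Q.map (Int.castRingHom ℂ)).comp (X ^ 2)) := by
  rw [Polynomial.comp, Polynomial.hom_eval₂, Polynomial.eval₂_map, map_pow, ← t_eq,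
    Polynomial.aeval_def]
  congr 1

/-- the coefficient of `γ` has positive order at `η` -/
lemma out_mem {f : Pic} (hf0 : dot f f = 0) (hF : dot Fib f = 2) {c : Cls → K}
    {inc out : ℝ → Cls → K} (hc : IsInitial f c) (hD : IsFlow f c inc out) {β : Pic} {η : ℂ}
    (hη : η ≠ 0) {ℓ : ℤ}
    (hw : ℓ ∣ dot Fib β) (hnd : ¬ ℓ ∣ dot f (fmClass β).2.1)
    (hiff : ∀ n : ℤ, η ^ (2 * n) = 1 ↔ ℓ ∣ n) {s : ℝ} (hs0 : 0 < s) (hs1 : s < 1) :
    out s (fmClass β) ∈ Kf η 1 := by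
  classical
  set γ := fmClass β with hγ
  have hγw : γ.1 = dot Fib β := rfl
  have hndv : ¬ Dv ℓ γ := by
    rintro ⟨b, hb⟩
    apply hnd
    rw [hb]
    show ℓ ∣ dot f (ℓ • b.2.1)
    rw [dot_zsmul]
    exact dvd_mul_right _ _
  have hmem := (all_mem hf0 hF hD (M := Mo η ℓ γ)
    (Mo_closed hη (fun n hn => (hiff n).2 hn) (fun a => hw.trans (fm_pair β a)))
    (fun a => by
      by_cases hP : Dv ℓ (a - γ)
      · obtain ⟨b, hb⟩ := hP
        have hab : a = γ + ℓ • b := by rw [← hb]; abel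
        have hndiv : ¬ a.1 ∣ dot f a.2.1 := by
          intro hdiv
          apply hnd
          have h1 : ℓ ∣ a.1 := by
            rw [hab]
            show ℓ ∣ γ.1 + ℓ • b.1
            rw [hγw, smul_eq_mul]
            exact dvd_add hw (dvd_mul_right _ _)
          have h2 := h1.trans hdiv
          rw [hab] at h2
          have h3 : dot f (γ + ℓ • b).2.1 = dot f γ.2.1 + ℓ * dot f b.2.1 := by
            show dot f (γ.2.1 + ℓ • b.2.1) = _
            rw [dot_add, dot_zsmul]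
          rw [h3] at h2
          exact (dvd_add_left (dvd_mul_right _ _)).1 h2
        obtain ⟨ε0, hε0, hz⟩ := hD.initial a
        have hca : c a = 0 := by
          by_contra hne
          exact hndiv (hc.vanishing a hne)
        refine ⟨ε0, hε0, fun u hu hu' => ?_⟩
        rw [(hz u hu hu').1, (hz u hu hu').2, hca]
        exact ⟨Submodule.zero_mem _, Submodule.zero_mem _⟩
      · obtain ⟨ε0, hε0, hz⟩ := hD.initial a
        refine ⟨ε0, hε0, fun u hu hu' => ?_⟩
        obtain ⟨i1, i2⟩ := hz u hu hu'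
        obtain ⟨p1, p2⟩ := dt_mem hη (fun n hn => (hiff n).1 hn) (hc.integrality a)
        rw [i1, i2]
        unfold Mo typ
        by_cases hd : Dv ℓ a
        · rw [if_pos hd]; exact ⟨p1, p1⟩
        · rw [if_neg hd, if_neg hP]; exact ⟨p2 hd, p2 hd⟩)
    _ γ rfl s hs0 hs1).2
  have htyp : typ ℓ γ γ = 1 := by
    unfold typ
    rw [if_neg hndv, if_pos]
    rw [sub_self]
    exact ⟨0, by simp⟩
  unfold Mo at hmem
  rwa [htyp] at hmem

/-- the order of `η²` -/
lemma order_iff (η : ℂ) (n : ℤ) : η ^ (2 * n) = 1 ↔ (orderOf (η ^ 2) : ℤ) ∣ n := by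
  have hprim := IsPrimitiveRoot.orderOf (η ^ 2)
  rw [← hprim.zpow_eq_one_iff_dvd n, ← zpow_natCast η 2, ← zpow_mul]
  norm_cast

/-- vanishing of a rational function of positive order -/
lemma num_eval {η : ℂ} {x : K} (h : x ∈ Kf η 1) : x.num.eval η = 0 := by
  obtain ⟨p, q, hq, h⟩ := h
  have hd : ι x.denom ≠ 0 := Pool.Agent.H73.P2.ι_ne_zero x.denom_ne_zero
  have hx : x * ι x.denom = ι x.num := ((div_eq_iff hd).1 (RatFunc.num_div_denom x)).symm
  have e : x.num * q = (X - C η) * p * x.denom := by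
    apply ι_inj
    rw [map_mul, map_mul, map_mul, ← hx]
    rw [zpow_one, Pool.Agent.H73.P2.pi] at h
    linear_combination ι x.denom * h
  have h1 := congrArg (eval η) e
  simp only [eval_mul, eval_sub, eval_X, eval_C, sub_self, zero_mul] at h1
  exact (mul_eq_zero.1 h1).resolve_right hq

/-- the end value has positive order at the roots of unity of order at least three -/
lemma end_mem {f : Pic} (hf0 : dot f f = 0) (hF : dot Fib f = 2) {c : Cls → K}
    {inc out : ℝ → Cls → K} (hc : IsInitial f c) (hD : IsFlow f c inc out) {β : Pic}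
    (hgood : ∀ ℓ : ℤ, 3 ≤ ℓ → ℓ ∣ dot Fib β → ¬ ℓ ∣ dot f (β + Fib)) {v : K}
    (hv : IsEnd out (fmClass β) v) {η : ℂ} (hη : η ≠ 0) {ℓ : ℤ} (hℓ : 3 ≤ ℓ) (hw : ℓ ∣ dot Fib β)
    (hiff : ∀ n : ℤ, η ^ (2 * n) = 1 ↔ ℓ ∣ n) : v ∈ Kf η 1 := by
  obtain ⟨ε, hε, hout⟩ := hv
  set s : ℝ := 1 - min (ε / 2) (1 / 2) with hs
  have hm0 : 0 < min (ε / 2) (1 / 2 : ℝ) := lt_min (by linarith) (by norm_num)
  have hm1 : min (ε / 2) (1 / 2 : ℝ) ≤ ε / 2 := min_le_left _ _
  have hm2 : min (ε / 2) (1 / 2 : ℝ) ≤ 1 / 2 := min_le_right _ _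
  have hs0 : 0 < s := by linarith
  have hs1 : s < 1 := by linarith
  rw [← hout s (by linarith) hs1]
  refine out_mem hf0 hF hc hD hη hw ?_ hiff hs0 hs1
  intro hdvd
  rw [dot_fm] at hdvd
  exact hgood ℓ hℓ hw ((dvd_add_left (Dvd.dvd.mul_right hw _)).1 hdvd)

lemma eval_root {Q : ℤ[X]} {N : ℤ} {η : ℂ} (hη : η ≠ 0)
    (hmem : t ^ (-N) * aeval (t ^ 2) Q / (t - t⁻¹) ∈ Kf η 1) :
    (Q.map (Int.castRingHom ℂ)).eval (η ^ 2) = 0 := by
  classical
  rw [aeval_eq] at hmem
  have hne : t - t⁻¹ ≠ 0 := by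
    intro h0
    have h4 : t * t - 1 = 0 := by
      have : t * t - 1 = t * (t - t⁻¹) := by
        rw [mul_sub, mul_inv_cancel₀ t_ne]
      rw [this, h0, mul_zero]
    have h5 : ι (X * X - 1) = 0 := by
      rw [map_sub, map_mul, map_one, ← t_eq]
      exact h4
    have h6 : (X * X - 1 : ℂ[X]) = 0 := ι_inj (by rw [h5, map_zero])
    have h7 := congrArg (eval 0) h6
    simp at h7
  set A := ι ((Q.map (Int.castRingHom ℂ)).comp (X ^ 2)) with hA
  have hfin : A ∈ Kf η 1 := by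
    have e : A = t ^ N * (t ^ (1 : ℤ) - t ^ (-(1 : ℤ))) * (t ^ (-N) * A / (t - t⁻¹)) := by
      rw [zpow_one, zpow_neg, zpow_neg, zpow_one, mul_assoc, mul_div_cancel₀ _ hne, ← mul_assoc,
        mul_inv_cancel₀ (zpow_ne_zero _ t_ne), one_mul]
    rw [e]
    have := mul_mem_Kf (mul_mem_Kf (tpow_mem hη N) (lam_mem hη 1)) hmem
    rw [zero_add, zero_add] at this
    exact this
  have := eval_eq_zero hfin
  rwa [eval_comp, eval_pow, eval_X] at this

lemma parity (β : Pic) : 2 ∣ dot β β - dot Fib β := by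
  have e : dot β β - dot Fib β = β.1 * (β.1 - 3) - ∑ i, β.2 i * (β.2 i - 1) := by
    unfold dot Fib
    simp only [mul_sub, Finset.sum_sub_distrib, one_mul, mul_one]
    ring
  rw [e]
  refine dvd_sub ?_ (Finset.dvd_sum fun i _ => ?_)
  · rcases Int.even_or_odd' β.1 with ⟨m, h | h⟩
    · exact ⟨m * (β.1 - 3), by rw [h]; ring⟩
    · exact ⟨β.1 * (m - 1), by rw [h]; ring⟩
  · exact (Int.even_mul_pred_self _).two_dvd

lemma eval_neg_one {N : ℤ} {Q : ℤ[X]} (hQ : IsPalindromic N Q) (hN : Odd N) : Q.eval (-1) = 0 := by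
  obtain ⟨h1, h2⟩ := hQ
  by_cases hN0 : N < 0
  · have : Q = 0 := by
      ext i
      rw [h1 i (by omega), coeff_zero]
    rw [this, Polynomial.eval_zero]
  obtain ⟨n, rfl⟩ := Int.eq_ofNat_of_zero_le (not_lt.1 hN0)
  have hdeg : Q.natDegree < n + 1 := by
    rw [Nat.lt_succ_iff, natDegree_le_iff_coeff_eq_zero]
    intro i hi
    exact h1 i (by exact_mod_cast hi)
  have hodd : Odd n := by exact_mod_cast hN
  have e := eval_eq_sum_range' hdeg (-1)
  have e2 : ∑ i ∈ Finset.range (n + 1), Q.coeff i * (-1) ^ i =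
      -∑ i ∈ Finset.range (n + 1), Q.coeff i * (-1) ^ i := by
    conv_lhs => rw [← Finset.sum_range_reflect]
    rw [← Finset.sum_neg_distrib]
    refine Finset.sum_congr rfl fun i hi => ?_
    rw [Finset.mem_range] at hi
    have hi' : n + 1 - 1 - i = n - i := by omega
    rw [hi', h2 (n - i) i (by omega)]
    have : ((-1 : ℤ)) ^ (n - i) = -(-1) ^ i := by
      rcases Nat.even_or_odd i with h | h
      · rw [Odd.neg_one_pow (Nat.Odd.sub_even (by omega) hodd h), Even.neg_one_pow h]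
      · rw [Even.neg_one_pow (Nat.Odd.sub_odd hodd h), Odd.neg_one_pow h]; norm_num
    rw [this]
    ring
  rw [e]
  omega

end Pool.Agent.H43.DP
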