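import Pool.Agent.H43.DP.Deg
import Pool.Agent.H43.DP.Filt

/-!
Propagation of the orders along the path of polarisations.
-/

set_option autoImplicit false

open Finset Set

namespace Pool.Agent.H43.DP

open Pool.Agent.H73.P2 (local_step ordP)

lemma ordProd_eq (ε : ℤ) (c : Cls → K) (g : Cls) :
    ordProd ε c g = ordP t (fun a b => pairHom a b) ε c g := rfl

section

variable {f : Pic} {c : Cls → K} {inc out : ℝ → Cls → K}

lemma onSlope_ne {s μ : ℝ} {c : Cls → K} {a : Cls} (h : onSlope f s μ c a ≠ 0) :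
    jdeg f s a.2.1 = μ * a.1 ∧ c a ≠ 0 := by
  unfold onSlope at h
  split_ifs at h with h1
  · exact ⟨h1, h⟩
  · exact absurd rfl h

variable (hf : dot f f = 0) (hF : dot Fib f = 2) (hD : IsFlow f c inc out)

include hf hF hD

/-- the conditions pass through a wall -/
lemma step {M : Cls → Submodule ℂ K}
    (hM : ∀ a b, ∀ c ∈ M a, ∀ c' ∈ M b, c * c' * (t ^ (pair a b) - t ^ (-pair a b)) ∈ M (a + b))
    {s : ℝ} (h0 : 0 < s) (h1 : s < 1) {a : Cls} (hlow : ∀ b : Cls, b.1 < a.1 → inc s b ∈ M b)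
    (ha : inc s a ∈ M a) : out s a ∈ M a := by
  classical
  by_cases hr : 0 < a.1
  swap
  · have : out s a = 0 := by
      by_contra hne
      exact hr (hD.support s a (Or.inr hne)).2.2.1
    rw [this]
    exact (M a).zero_mem
  have hrR : (0 : ℝ) < a.1 := by exact_mod_cast hr
  set μ : ℝ := jdeg f s a.2.1 / a.1 with hμ
  have hμa : jdeg f s a.2.1 = μ * a.1 := by rw [hμ, div_mul_cancel₀ _ hrR.ne']
  set C : ℝ := μ ^ 2 / (8 * (s * (1 - s))) + 1 with hC
  set fi := onSlope f s μ (inc s) with hfi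
  set fo := onSlope f s μ (out s) with hfo
  have adm_i : ∀ b, fi b ≠ 0 → Adm f s μ b := by
    intro b hb
    obtain ⟨h2, h3⟩ := onSlope_ne hb
    obtain ⟨-, -, h4, h5⟩ := hD.support s b (Or.inl h3)
    exact ⟨h4, h5, h2⟩
  have adm_o : ∀ b, fo b ≠ 0 → Adm f s μ b := by
    intro b hb
    obtain ⟨h2, h3⟩ := onSlope_ne hb
    obtain ⟨-, -, h4, h5⟩ := hD.support s b (Or.inr h3)
    exact ⟨h4, h5, h2⟩
  have adm : ∀ b, (fi b ≠ 0 ∨ fo b ≠ 0) → Adm f s μ b := by
    rintro b (h | h)
    · exact adm_i b h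
    · exact adm_o b h
  have hpos : ∀ b, Adm f s μ b → 0 < degHom C b := by
    intro b hb
    have h2 := deg_pos hf hF h0 h1 (le_refl C) hb
    have h3 : (0 : ℝ) < b.1 := by exact_mod_cast hb.1
    linarith
  let M' : Cls → Submodule ℂ K := fun b => if b.1 ≤ 0 then ⊥ else if b.1 < a.1 ∨ b = a then M b else ⊤
  have hM' : ∀ b b', ∀ c ∈ M' b, ∀ c' ∈ M' b',
      c * c' * (t ^ (pairHom b b') - t ^ (-pairHom b b')) ∈ M' (b + b') := by
    intro b b' c hc c' hc'
    by_cases hb : b.1 ≤ 0
    · have : c = 0 := by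
        simp only [M', if_pos hb] at hc
        exact (Submodule.mem_bot ℂ).1 hc
      rw [this, zero_mul, zero_mul]
      exact Submodule.zero_mem _
    by_cases hb' : b'.1 ≤ 0
    · have : c' = 0 := by
        simp only [M', if_pos hb'] at hc'
        exact (Submodule.mem_bot ℂ).1 hc'
      rw [this, mul_zero, zero_mul]
      exact Submodule.zero_mem _
    push Not at hb hb'
    have hsum : (b + b').1 = b.1 + b'.1 := rfl
    simp only [M']
    rw [if_neg (by rw [hsum]; omega)]
    by_cases hc1 : (b + b').1 < a.1 ∨ b + b' = a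
    · rw [if_pos hc1]
      have hle : b.1 + b'.1 ≤ a.1 := by
        rcases hc1 with h | h
        · rw [hsum] at h; exact h.le
        · rw [← h, hsum]
      have hba : b.1 < a.1 := by omega
      have hba' : b'.1 < a.1 := by omega
      simp only [M', if_neg (not_le.2 hb), if_pos (Or.inl hba : b.1 < a.1 ∨ b = a)] at hc
      simp only [M', if_neg (not_le.2 hb'), if_pos (Or.inl hba' : b'.1 < a.1 ∨ b' = a)] at hc'
      exact hM b b' c hc c' hc'
    · rw [if_neg hc1]
      exact Submodule.mem_top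
  have hres := local_step t_ne pairHom pairHom_self (degHom C)
    (fun b => -((dot Fib b.2.1 : ℝ) / b.1)) (fi := fi) (fo := fo) (M := M') (D := degHom C a)
    (fun b hb => hpos b (adm_i b hb)) (fun b hb => hpos b (adm_o b hb))
    ((finite_deg hf hF h0 h1 (le_refl C) (degHom C a)).subset (fun b hb => ⟨hb.1, adm b hb.2⟩))
    ?_ (fun g => hD.wallCrossing s μ g h0 h1) hM' ?_ a le_rfl
  · have hMa : M' a = M a := by
      show (if a.1 ≤ 0 then ⊥ else if a.1 < a.1 ∨ a = a then M a else ⊤) = M a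
      rw [if_neg (not_le.2 hr), if_pos (Or.inr rfl)]
    rw [hMa] at hres
    have e : fo a = out s a := by
      simp only [hfo, onSlope, if_pos hμa]
    rw [← e]
    exact hres
  · intro b b' hb hb' hν
    have h2 := (adm b hb).1
    have h3 := (adm b' hb').1
    have h2' : (0 : ℝ) < b.1 := by exact_mod_cast h2
    have h3' : (0 : ℝ) < b'.1 := by exact_mod_cast h3
    have h4 : (dot Fib b.2.1 : ℝ) / b.1 ≤ (dot Fib b'.2.1 : ℝ) / b'.1 := neg_le_neg_iff.1 hν
    rw [div_le_div_iff₀ h2' h3'] at h4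
    have h5 : dot Fib b.2.1 * b'.1 ≤ dot Fib b'.2.1 * b.1 := by exact_mod_cast h4
    rw [pairHom_apply]
    unfold pair
    linarith
  · intro b _
    have hfib : fi b = 0 ∨ fi b = inc s b := by
      by_cases h : fi b = 0
      · exact Or.inl h
      · right
        have := (onSlope_ne h).1
        simp only [hfi, onSlope, if_pos this]
    by_cases hb : b.1 ≤ 0
    · have : fi b = 0 := by
        by_contra hne
        have := (adm_i b hne).1
        omega
      rw [this]
      exact Submodule.zero_mem _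
    by_cases hb2 : b.1 < a.1 ∨ b = a
    · simp only [M', if_neg hb, if_pos hb2]
      rcases hfib with h | h
      · rw [h]; exact Submodule.zero_mem _
      · rw [h]
        rcases hb2 with h3 | h3
        · exact hlow b h3
        · rw [h3]; exact ha
    · simp only [M', if_neg hb, if_neg hb2]
      exact Submodule.mem_top

/-- the orders hold for all polarisations if they hold near the ruling -/
theorem all_mem {M : Cls → Submodule ℂ K}
    (hM : ∀ a b, ∀ c ∈ M a, ∀ c' ∈ M b, c * c' * (t ^ (pair a b) - t ^ (-pair a b)) ∈ M (a + b))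
    (hnear : ∀ a, ∃ ε > 0, ∀ s, 0 < s → s < ε → inc s a ∈ M a ∧ out s a ∈ M a) :
    ∀ (n : ℕ) (a : Cls), a.1.toNat = n → ∀ s, 0 < s → s < 1 → inc s a ∈ M a ∧ out s a ∈ M a := by
  intro n
  induction n using Nat.strong_induction_on with
  | _ n ih =>
  intro a hn s1 h0 h1
  by_cases hr : 0 < a.1
  swap
  · have : inc s1 a = 0 ∧ out s1 a = 0 := by
      constructor
      · by_contra hne
        exact hr (hD.support s1 a (Or.inl hne)).2.2.1
      · by_contra hne
        exact hr (hD.support s1 a (Or.inr hne)).2.2.1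
    rw [this.1, this.2]
    exact ⟨(M a).zero_mem, (M a).zero_mem⟩
  have hlow : ∀ s, 0 < s → s < 1 → ∀ b : Cls, b.1 < a.1 → inc s b ∈ M b := by
    intro s hs hs' b hb
    exact (ih b.1.toNat (by omega) b rfl s hs hs').1
  by_contra hbad
  obtain ⟨ε0, hε0, hzero⟩ := hnear a
  let S : Set ℝ := {s | 0 < s ∧ s ≤ s1 ∧ ¬ (inc s a ∈ M a ∧ out s a ∈ M a)}
  have hS1 : s1 ∈ S := ⟨h0, le_rfl, hbad⟩
  have hSb : ∀ s ∈ S, ε0 ≤ s := by
    rintro s ⟨hs, hs', hs''⟩
    by_contra hlt
    push Not at hlt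
    exact hs'' (hzero s hs hlt)
  have hbdd : BddBelow S := ⟨ε0, fun s hs => hSb s hs⟩
  set s0 := sInf S with hs0
  have hs0pos : 0 < s0 := lt_of_lt_of_le hε0 (le_csInf ⟨s1, hS1⟩ hSb)
  have hs0le : s0 ≤ s1 := csInf_le hbdd hS1
  have hs01 : s0 < 1 := lt_of_le_of_lt hs0le h1
  have hgood : ∀ s, 0 < s → s < s0 → inc s a ∈ M a ∧ out s a ∈ M a := by
    intro s hs hlt
    by_contra hc
    have : s ∈ S := ⟨hs, (hlt.le.trans hs0le), hc⟩
    exact absurd (csInf_le hbdd this) (not_le.2 hlt)
  obtain ⟨ε, hε, hprop⟩ := hD.propagation s0 a hs0pos hs01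
  have hin : inc s0 a ∈ M a := by
    set u := min (ε / 2) (s0 / 2) with hu
    have hu0 : 0 < u := lt_min (by linarith) (by linarith)
    have hu1 : u < ε := lt_of_le_of_lt (min_le_left _ _) (by linarith)
    have hu2 : u < s0 := lt_of_le_of_lt (min_le_right _ _) (by linarith)
    have h2 := (hprop u hu0 hu1).2.1
    rw [← h2]
    exact (hgood (s0 - u) (by linarith) (by linarith)).1
  have hout : out s0 a ∈ M a :=
    step hf hF hD hM hs0pos hs01 (hlow s0 hs0pos hs01) hin
  obtain ⟨s, hsS, hslt⟩ := exists_lt_of_csInf_lt ⟨s1, hS1⟩ (show sInf S < s0 + ε by rw [← hs0]; linarith)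
  have hsge : s0 ≤ s := csInf_le hbdd hsS
  apply hsS.2.2
  rcases hsge.eq_or_lt with h | h
  · rw [← h]
    exact ⟨hin, hout⟩
  · obtain ⟨h2, h3⟩ := (hprop (s - s0) (by linarith) (by linarith)).1
    rw [add_sub_cancel] at h2 h3
    rw [h2, h3]
    exact ⟨hout, hout⟩

end

end Pool.Agent.H43.DP
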