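import Pool.Agent.H43.DP.Tri
import Pool.Agent.H43.DP.Path

/-!
Existence of the wall-crossing flow.
-/

set_option autoImplicit false

open Finset

namespace Pool.Agent.H43.DP

/-- coefficients before `s`, from the jumps `D` -/
noncomputable def incOf (c : Cls → K) (D : ℝ × Cls → K) (s : ℝ) (a : Cls) : K :=
  open Classical in if 0 < s ∧ s < 1 then c a + ∑ᶠ (u : ℝ) (_ : 0 < u ∧ u < s), D (u, a) else 0

/-- coefficients after `s`, from the jumps `D` -/
noncomputable def outOf (c : Cls → K) (D : ℝ × Cls → K) (s : ℝ) (a : Cls) : K :=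
  open Classical in if 0 < s ∧ s < 1 then incOf c D s a + D (s, a) else 0

/-- the slope -/
noncomputable def slopeAt (f : Pic) (s : ℝ) (g : Cls) : ℝ := jdeg f s g.2.1 / g.1

/-- the jump required by the wall-crossing formula -/
noncomputable def Phi (f : Pic) (c : Cls → K) (D : ℝ × Cls → K) (x : ℝ × Cls) : K :=
  open Classical in if 0 < x.1 ∧ x.1 < 1 ∧ 0 < x.2.1 then
    ordProd 1 (low x.2 (onSlope f x.1 (slopeAt f x.1 x.2) (incOf c D x.1))) x.2 -
      ordProd (-1) (low x.2 (onSlope f x.1 (slopeAt f x.1 x.2) (outOf c D x.1))) x.2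
  else 0

lemma Phi_loc (f : Pic) (c : Cls → K) (D D' : ℝ × Cls → K) (x : ℝ × Cls)
    (h : ∀ y : ℝ × Cls, y.2.1.toNat < x.2.1.toNat → D y = D' y) : Phi f c D x = Phi f c D' x := by
  classical
  unfold Phi
  by_cases hx : 0 < x.1 ∧ x.1 < 1 ∧ 0 < x.2.1
  swap
  · rw [if_neg hx, if_neg hx]
  rw [if_pos hx, if_pos hx]
  have hD : ∀ b : Cls, b.1 < x.2.1 → ∀ u : ℝ, D (u, b) = D' (u, b) := by
    intro b hb u
    refine h (u, b) ?_
    show b.1.toNat < x.2.1.toNat
    have := hx.2.2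
    omega
  have hi : ∀ b : Cls, b.1 < x.2.1 → incOf c D x.1 b = incOf c D' x.1 b := by
    intro b hb
    unfold incOf
    simp only [hD b hb]
  have ho : ∀ b : Cls, b.1 < x.2.1 → outOf c D x.1 b = outOf c D' x.1 b := by
    intro b hb
    unfold outOf
    rw [hi b hb, hD b hb]
  have e1 : low x.2 (onSlope f x.1 (slopeAt f x.1 x.2) (incOf c D x.1)) =
      low x.2 (onSlope f x.1 (slopeAt f x.1 x.2) (incOf c D' x.1)) := by
    funext b
    unfold low
    split_ifs with hb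
    · unfold onSlope
      rw [hi b hb]
    · rfl
  have e2 : low x.2 (onSlope f x.1 (slopeAt f x.1 x.2) (outOf c D x.1)) =
      low x.2 (onSlope f x.1 (slopeAt f x.1 x.2) (outOf c D' x.1)) := by
    funext b
    unfold low
    split_ifs with hb
    · unfold onSlope
      rw [ho b hb]
    · rfl
  rw [e1, e2]

section

variable {f : Pic} (hf : dot f f = 0) (hF : dot Fib f = 2) {c : Cls → K}
  (hc : ∀ a, c a ≠ 0 → Bog a) {D : ℝ × Cls → K} (hfix : ∀ x, D x = Phi f c D x)

lemma low_ne {g b : Cls} {c : Cls → K} (h : low g c b ≠ 0) : b.1 < g.1 ∧ c b ≠ 0 := by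
  unfold low at h
  split_ifs at h with h1
  · exact ⟨h1, h⟩
  · exact absurd rfl h

lemma inc_cases {s : ℝ} {a : Cls} (h : incOf c D s a ≠ 0) :
    0 < s ∧ s < 1 ∧ (c a ≠ 0 ∨ ∃ u, D (u, a) ≠ 0) := by
  classical
  unfold incOf at h
  by_cases hs : 0 < s ∧ s < 1
  swap
  · rw [if_neg hs] at h; exact absurd rfl h
  refine ⟨hs.1, hs.2, ?_⟩
  rw [if_pos hs] at h
  by_contra hcon
  push Not at hcon
  apply h
  rw [hcon.1, zero_add]
  refine finsum_eq_zero_of_forall_eq_zero fun u => ?_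
  rw [hcon.2 u]
  simp

lemma out_cases {s : ℝ} {a : Cls} (h : outOf c D s a ≠ 0) :
    0 < s ∧ s < 1 ∧ (c a ≠ 0 ∨ ∃ u, D (u, a) ≠ 0) := by
  classical
  unfold outOf at h
  by_cases hs : 0 < s ∧ s < 1
  swap
  · rw [if_neg hs] at h; exact absurd rfl h
  rw [if_pos hs] at h
  by_cases hi : incOf c D s a = 0
  · rw [hi, zero_add] at h
    exact ⟨hs.1, hs.2, Or.inr ⟨s, h⟩⟩
  · exact inc_cases hi

include hf hF hc hfix

/-- jumps happen at walls -/
lemma D_wall_aux : ∀ (n : ℕ) (g : Cls), g.1.toNat = n → ∀ s, D (s, g) ≠ 0 → Wall f s g := by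
  classical
  intro n
  induction n using Nat.strong_induction_on with
  | _ n ih =>
  intro g hn s hD
  by_contra hw
  have hD2 := hD
  rw [hfix] at hD2
  unfold Phi at hD2
  by_cases hx : 0 < s ∧ s < 1 ∧ 0 < g.1
  swap
  · rw [if_neg hx] at hD2; exact hD2 rfl
  rw [if_pos hx] at hD2
  obtain ⟨h0, h1, hg⟩ := hx
  simp only [] at hD2
  set μ := slopeAt f s g with hμ
  apply hD2
  rw [sub_eq_zero, ordProd_def, ordProd_def]
  refine finsum_congr fun m => finsum_congr fun htot => ?_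
  have hlowB : ∀ b : Cls, b.1 < g.1 → (c b ≠ 0 ∨ ∃ u, D (u, b) ≠ 0) → Bog b := by
    rintro b hb (h | ⟨u, h⟩)
    · exact hc b h
    · exact wall_bog hf hF (ih b.1.toNat (by omega) b rfl u h)
  by_cases hall : ∀ b ∈ m.support, Adm f s μ b ∧ b.1 < g.1
  · have hadm : ∀ b ∈ m.support, Adm f s μ b := fun b hb => (hall b hb).1
    have hw' : ¬ Wall f s (total m) := by rw [htot]; exact hw
    have hDb : ∀ b ∈ m.support, D (s, b) = 0 := by
      intro b hb
      by_contra hne
      have h2 := (hall b hb).2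
      exact hw' (wall_total hf hF h0 h1 hadm hb (ih b.1.toNat (by omega) b rfl s hne))
    rw [term_comm (pair_zero hf hF h0 h1 hadm hw')]
    refine term_congr fun b hb => ?_
    unfold low
    rw [if_pos (hall b hb).2, if_pos (hall b hb).2]
    unfold onSlope outOf
    rw [if_pos (⟨h0, h1⟩ : 0 < s ∧ s < 1), hDb b hb, add_zero]
  · push Not at hall
    obtain ⟨b, hb, hnb⟩ := hall
    have e1 : low g (onSlope f s μ (incOf c D s)) b = 0 := by
      by_contra hne
      obtain ⟨h2, h3⟩ := low_ne hne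
      obtain ⟨h4, h5⟩ := onSlope_ne h3
      have hB := hlowB b h2 (inc_cases h5).2.2
      exact absurd h2 (not_lt.2 (hnb ⟨hB.1, hB.2, h4⟩))
    have e2 : low g (onSlope f s μ (outOf c D s)) b = 0 := by
      by_contra hne
      obtain ⟨h2, h3⟩ := low_ne hne
      obtain ⟨h4, h5⟩ := onSlope_ne h3
      have hB := hlowB b h2 (out_cases h5).2.2
      exact absurd h2 (not_lt.2 (hnb ⟨hB.1, hB.2, h4⟩))
    rw [term_eq_zero hb e1, term_eq_zero hb e2]

lemma D_wall {g : Cls} {s : ℝ} (h : D (s, g) ≠ 0) : Wall f s g :=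
  D_wall_aux hf hF hc hfix _ g rfl s h

lemma D_finite (g : Cls) : {s : ℝ | D (s, g) ≠ 0}.Finite :=
  (wall_finite hf hF g).subset fun _ h => D_wall hf hF hc hfix h

lemma inc_bog {s : ℝ} {a : Cls} (h : incOf c D s a ≠ 0) : 0 < s ∧ s < 1 ∧ Bog a := by
  obtain ⟨h0, h1, h | ⟨u, h⟩⟩ := inc_cases h
  · exact ⟨h0, h1, hc a h⟩
  · exact ⟨h0, h1, wall_bog hf hF (D_wall hf hF hc hfix h)⟩

lemma out_bog {s : ℝ} {a : Cls} (h : outOf c D s a ≠ 0) : 0 < s ∧ s < 1 ∧ Bog a := by
  obtain ⟨h0, h1, h | ⟨u, h⟩⟩ := out_cases h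
  · exact ⟨h0, h1, hc a h⟩
  · exact ⟨h0, h1, wall_bog hf hF (D_wall hf hF hc hfix h)⟩

/-- no jumps near `s`, except at `s` -/
lemma gap (g : Cls) (s : ℝ) : ∃ ε > 0, ∀ u : ℝ, u ≠ s → |u - s| < ε → D (u, g) = 0 := by
  have hfin := D_finite hf hF hc hfix g
  have hfin' : ({u : ℝ | D (u, g) ≠ 0} \ {s}).Finite := hfin.subset Set.sdiff_subset
  have hopen : IsOpen ({u : ℝ | D (u, g) ≠ 0} \ {s})ᶜ := hfin'.isClosed.isOpen_compl
  obtain ⟨ε, hε, hball⟩ := Metric.isOpen_iff.1 hopen s (by simp)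
  refine ⟨ε, hε, ?_⟩
  intro u hus hu
  by_contra hne
  have h1 : u ∈ Metric.ball s ε := by
    rw [Metric.mem_ball, Real.dist_eq]
    exact hu
  exact hball h1 ⟨hne, hus⟩

/-- the sum of the jumps -/
lemma sum_step (g : Cls) {s s' : ℝ} (h0 : 0 < s) (h1 : s < s')
    (h : ∀ v, s < v → v < s' → D (v, g) = 0) :
    (∑ᶠ (v : ℝ) (_ : 0 < v ∧ v < s'), D (v, g)) =
      (∑ᶠ (v : ℝ) (_ : 0 < v ∧ v < s), D (v, g)) + D (s, g) := by
  classical
  have hfin := D_finite hf hF hc hfix g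
  have key : ∀ v : ℝ, (∑ᶠ (_ : 0 < v ∧ v < s'), D (v, g)) =
      (∑ᶠ (_ : 0 < v ∧ v < s), D (v, g)) + (if v = s then D (v, g) else 0) := by
    intro v
    rw [finsum_eq_if, finsum_eq_if]
    rcases lt_trichotomy v s with hv | hv | hv
    · rw [if_neg hv.ne, add_zero]
      by_cases hv0 : 0 < v
      · rw [if_pos ⟨hv0, hv.trans h1⟩, if_pos ⟨hv0, hv⟩]
      · rw [if_neg fun h => hv0 h.1, if_neg fun h => hv0 h.1]
    · rw [if_pos ⟨hv ▸ h0, hv ▸ h1⟩, if_neg fun h => absurd h.2 (not_lt.2 hv.ge), if_pos hv,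
        zero_add]
    · have hn : ¬ (0 < v ∧ v < s) := fun h => absurd h.2 (not_lt.2 hv.le)
      rw [if_neg hv.ne', add_zero, if_neg hn]
      split_ifs with h2
      · exact h v hv h2.2
      · rfl
  rw [finsum_congr key, finsum_add_distrib]
  · congr 1
    rw [finsum_eq_single _ s]
    · rw [if_pos rfl]
    · intro v hv
      rw [if_neg hv]
  · refine hfin.subset ?_
    intro v hv
    rw [Function.mem_support, finsum_eq_if] at hv
    split_ifs at hv with h2
    · exact hv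
    · exact absurd rfl hv
  · refine (Set.finite_singleton s).subset ?_
    intro v hv
    rw [Function.mem_support] at hv
    split_ifs at hv with h2
    · exact h2
    · exact absurd rfl hv

omit hf hF hc hfix in
lemma inc_eq {s : ℝ} (h0 : 0 < s) (h1 : s < 1) (a : Cls) :
    incOf c D s a = c a + ∑ᶠ (u : ℝ) (_ : 0 < u ∧ u < s), D (u, a) := by
  unfold incOf
  rw [if_pos ⟨h0, h1⟩]

omit hf hF hc hfix in
lemma out_eq {s : ℝ} (h0 : 0 < s) (h1 : s < 1) (a : Cls) :
    outOf c D s a = incOf c D s a + D (s, a) := by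
  unfold outOf
  rw [if_pos ⟨h0, h1⟩]

/-- moving from `s` to `s'` without crossing a jump in between -/
lemma inc_step (a : Cls) {s s' : ℝ} (h0 : 0 < s) (h1 : s < s') (h2 : s' < 1)
    (h : ∀ v, s < v → v < s' → D (v, a) = 0) : incOf c D s' a = outOf c D s a := by
  rw [out_eq h0 (h1.trans h2), inc_eq h0 (h1.trans h2), inc_eq (h0.trans h1) h2,
    sum_step hf hF hc hfix a h0 h1 h, add_assoc]

lemma propag (s : ℝ) (a : Cls) (h0 : 0 < s) (h1 : s < 1) : ∃ ε > 0, ∀ u, 0 < u → u < ε →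
    (incOf c D (s + u) a = outOf c D s a ∧ outOf c D (s + u) a = outOf c D s a) ∧
    (incOf c D (s - u) a = incOf c D s a ∧ outOf c D (s - u) a = incOf c D s a) := by
  obtain ⟨ε, hε, hgap⟩ := gap hf hF hc hfix a s
  refine ⟨min ε (min s (1 - s)), by
    have : 0 < 1 - s := by linarith
    positivity, ?_⟩
  intro u hu hu'
  have k1 : u < ε := lt_of_lt_of_le hu' (min_le_left _ _)
  have k2 : u < s := lt_of_lt_of_le hu' ((min_le_right _ _).trans (min_le_left _ _))
  have k3 : u < 1 - s := lt_of_lt_of_le hu' ((min_le_right _ _).trans (min_le_right _ _))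
  have hz : ∀ v, v ≠ s → s - u ≤ v → v ≤ s + u → D (v, a) = 0 := by
    intro v hv hv1 hv2
    refine hgap v hv ?_
    rw [abs_lt]
    constructor <;> linarith
  have e1 : incOf c D (s + u) a = outOf c D s a :=
    inc_step hf hF hc hfix a h0 (by linarith) (by linarith)
      fun v hv hv' => hz v hv.ne' (by linarith) hv'.le
  have e2 : incOf c D s a = outOf c D (s - u) a :=
    inc_step hf hF hc hfix a (by linarith) (by linarith) h1
      fun v hv hv' => hz v hv'.ne hv.le (by linarith)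
  refine ⟨⟨e1, ?_⟩, ⟨?_, e2.symm⟩⟩
  · rw [out_eq (by linarith) (by linarith), e1, hz (s + u) (by linarith) (by linarith) le_rfl,
      add_zero]
  · rw [e2, out_eq (by linarith) (by linarith), hz (s - u) (by linarith) le_rfl (by linarith),
      add_zero]

lemma init (a : Cls) : ∃ ε > 0, ∀ s, 0 < s → s < ε → incOf c D s a = c a ∧ outOf c D s a = c a := by
  obtain ⟨ε, hε, hgap⟩ := gap hf hF hc hfix a 0
  refine ⟨min ε 1, by positivity, ?_⟩
  intro s h0 hs
  have k1 : s < ε := lt_of_lt_of_le hs (min_le_left _ _)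
  have k2 : s < 1 := lt_of_lt_of_le hs (min_le_right _ _)
  have hz : ∀ v, 0 < v → v ≤ s → D (v, a) = 0 := by
    intro v hv hv'
    refine hgap v hv.ne' ?_
    rw [sub_zero, abs_of_pos hv]
    linarith
  have e1 : incOf c D s a = c a := by
    rw [inc_eq h0 k2, finsum_eq_zero_of_forall_eq_zero, add_zero]
    intro v
    rw [finsum_eq_if]
    split_ifs with hv
    · exact hz v hv.1 hv.2.le
    · rfl
  exact ⟨e1, by rw [out_eq h0 k2, e1, hz s h0 le_rfl, add_zero]⟩

end

end Pool.Agent.H43.DP
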