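import Pool.Agent.H43.DP.Defs

/-!
The intersection form: bilinearity, Hodge index, finiteness.
-/

set_option autoImplicit false

open Finset

namespace Pool.Agent.H43.DP

lemma dot_add (D E G : Pic) : dot D (E + G) = dot D E + dot D G := by
  unfold dot
  simp only [Prod.fst_add, Prod.snd_add, Pi.add_apply, mul_add, Finset.sum_add_distrib]
  ring

lemma dot_comm (D E : Pic) : dot D E = dot E D := by
  unfold dot
  rw [mul_comm]
  congr 1
  exact Finset.sum_congr rfl fun i _ => mul_comm _ _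

lemma add_dot (D E G : Pic) : dot (D + E) G = dot D G + dot E G := by
  rw [dot_comm, dot_add, dot_comm G D, dot_comm G E]

lemma dot_zsmul (D E : Pic) (n : ℤ) : dot D (n • E) = n * dot D E := by
  unfold dot
  simp only [Prod.smul_fst, Prod.smul_snd, Pi.smul_apply, smul_eq_mul, mul_sub, Finset.mul_sum]
  congr 1
  · ring
  · exact Finset.sum_congr rfl fun i _ => by ring

lemma zsmul_dot (D E : Pic) (n : ℤ) : dot (n • D) E = n * dot D E := by
  rw [dot_comm, dot_zsmul, dot_comm]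

lemma dot_sub (D E G : Pic) : dot D (E - G) = dot D E - dot D G := by
  have h := dot_add D (E - G) G
  rw [sub_add_cancel] at h
  linarith

lemma sub_dot (D E G : Pic) : dot (D - E) G = dot D G - dot E G := by
  rw [dot_comm, dot_sub, dot_comm G D, dot_comm G E]

lemma dot_zero (D : Pic) : dot D 0 = 0 := by
  unfold dot
  simp

/-- the pairing as a bi-additive map -/
def pairHom : Cls →+ Cls →+ ℤ :=
  AddMonoidHom.mk' (fun a => AddMonoidHom.mk' (pair a) (fun b c => by
      unfold pair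
      simp only [Prod.fst_add, Prod.snd_add, dot_add]
      ring))
    (fun a b => AddMonoidHom.ext fun c => by
      show pair (a + b) c = pair a c + pair b c
      unfold pair
      simp only [Prod.fst_add, Prod.snd_add, dot_add]
      ring)

lemma pairHom_apply (a b : Cls) : pairHom a b = pair a b := rfl

lemma pairHom_self (a : Cls) : pairHom a a = 0 := by
  rw [pairHom_apply]; unfold pair; ring

lemma sq_le_of_cs {J x : Pic} : (∑ i, J.2 i * x.2 i) ^ 2 ≤ (∑ i, J.2 i ^ 2) * ∑ i, x.2 i ^ 2 :=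
  Finset.sum_mul_sq_le_sq_mul_sq _ _ _

lemma self_eq (D : Pic) : dot D D = D.1 ^ 2 - ∑ i, D.2 i ^ 2 := by
  unfold dot
  rw [pow_two]
  congr 1
  exact Finset.sum_congr rfl fun i _ => by ring

/-- the form is negative semidefinite on the orthogonal of a vector of positive square -/
lemma neg_of_orth {J x : Pic} (hJ : 0 < dot J J) (h : dot J x = 0) : dot x x ≤ 0 := by
  have cs := sq_le_of_cs (J := J) (x := x)
  have hj := self_eq J
  have hx := self_eq x
  set A := ∑ i, J.2 i ^ 2 with hA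
  set B := ∑ i, x.2 i ^ 2 with hB
  have hA0 : 0 ≤ A := Finset.sum_nonneg fun i _ => sq_nonneg _
  have hB0 : 0 ≤ B := Finset.sum_nonneg fun i _ => sq_nonneg _
  have h1 : J.1 * x.1 = ∑ i, J.2 i * x.2 i := by
    unfold dot at h; linarith
  rw [← h1, mul_pow] at cs
  rw [hj] at hJ
  rw [hx]
  by_contra hcon
  push Not at hcon
  have h2 : B < x.1 ^ 2 := by linarith
  have h3 : A < J.1 ^ 2 := by linarith
  have h4 : A * B ≤ A * x.1 ^ 2 := mul_le_mul_of_nonneg_left h2.le hA0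
  have h5 : 0 < x.1 ^ 2 := lt_of_le_of_lt hB0 h2
  have h6 : A * x.1 ^ 2 < J.1 ^ 2 * x.1 ^ 2 := mul_lt_mul_of_pos_right h3 h5
  linarith

lemma fib_sq : dot Fib Fib = 0 := by
  unfold dot Fib
  simp

/-- Hodge index -/
lemma hodge {f : Pic} (hf : dot f f = 0) (hF : dot Fib f = 2) (D : Pic) :
    dot D D ≤ dot f D * dot Fib D := by
  have hF' : dot f Fib = 2 := by rw [dot_comm]; exact hF
  set y := dot Fib D with hy
  set x := dot f D with hx
  have hJ : dot (Fib + f) (Fib + f) = 4 := by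
    simp only [dot_add, add_dot, fib_sq, hf, hF, hF']
    norm_num
  have h := neg_of_orth (J := Fib + f) (x := (2 : ℤ) • D - y • f - x • Fib) (by rw [hJ]; norm_num) (by
    simp only [dot_sub, dot_zsmul, add_dot, fib_sq, hf, hF, hF', ← hy, ← hx]
    ring)
  have e : dot ((2 : ℤ) • D - y • f - x • Fib) ((2 : ℤ) • D - y • f - x • Fib) =
      4 * (dot D D - x * y) := by
    simp only [dot_sub, dot_zsmul, sub_dot, zsmul_dot, fib_sq, hf, hF, hF', ← hy, ← hx,
      dot_comm D f, dot_comm D Fib]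
    ring
  rw [e] at h
  linarith

/-- finiteness of the divisor classes with bounded degree and self-intersection bounded below -/
lemma finite_pic {J : Pic} (hJ : 0 < dot J J) (A B : ℕ) :
    {D : Pic | |dot J D| ≤ A ∧ -(B : ℤ) ≤ dot D D}.Finite := by
  set R : ℤ := 4 * (J.1 ^ 2 * (A : ℤ) ^ 2) + 2 * (J.1 ^ 2 * B) + B with hR
  have hsub : {D : Pic | |dot J D| ≤ A ∧ -(B : ℤ) ≤ dot D D} ⊆
      (Set.Icc (-R) R) ×ˢ (Set.univ.pi fun _ : Fin 9 => Set.Icc (-R) R) := by
    rintro D ⟨h1, h2⟩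
    have cs := sq_le_of_cs (J := J) (x := D)
    have hj := self_eq J
    have hd := self_eq D
    set P := ∑ i, J.2 i ^ 2 with hP
    set E := ∑ i, D.2 i ^ 2 with hE
    have hP0 : 0 ≤ P := Finset.sum_nonneg fun i _ => sq_nonneg _
    have hE0 : 0 ≤ E := Finset.sum_nonneg fun i _ => sq_nonneg _
    set z := dot J D with hz
    have e1 : ∑ i, J.2 i * D.2 i = J.1 * D.1 - z := by
      rw [hz]; unfold dot; ring
    rw [e1] at cs
    have hA0 : (0 : ℤ) ≤ A := Int.natCast_nonneg _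
    have hB0 : (0 : ℤ) ≤ B := Int.natCast_nonneg _
    have hz2 : z ^ 2 ≤ (A : ℤ) ^ 2 := by
      rw [← sq_abs z]
      exact pow_le_pow_left₀ (abs_nonneg _) h1 2
    -- `P ≤ J.1² - 1`, `E ≤ D.1² + B`
    have hP1 : P ≤ J.1 ^ 2 - 1 := by
      have : 0 < J.1 ^ 2 - P := by rw [← hj]; exact hJ
      omega
    have hE1 : E ≤ D.1 ^ 2 + B := by linarith
    have c1 : P * E ≤ (J.1 ^ 2 - 1) * (D.1 ^ 2 + B) :=
      mul_le_mul hP1 hE1 hE0 (by linarith)
    have c2 : (J.1 * D.1 - z) ^ 2 ≤ (J.1 ^ 2 - 1) * (D.1 ^ 2 + B) := le_trans cs c1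
    -- `D.1² ≤ 2 J.1 D.1 z - z² + (J.1² - 1) B`
    have c3 : D.1 ^ 2 ≤ 2 * (J.1 * D.1 * z) + J.1 ^ 2 * B := by nlinarith [sq_nonneg z]
    have c4 : 4 * (J.1 * D.1 * z) ≤ D.1 ^ 2 + 4 * (J.1 ^ 2 * z ^ 2) := by
      nlinarith [sq_nonneg (D.1 - 2 * (J.1 * z))]
    have hJ2 : 0 ≤ J.1 ^ 2 := sq_nonneg _
    have c5 : J.1 ^ 2 * z ^ 2 ≤ J.1 ^ 2 * (A : ℤ) ^ 2 := mul_le_mul_of_nonneg_left hz2 hJ2
    have c6 : D.1 ^ 2 ≤ 4 * (J.1 ^ 2 * (A : ℤ) ^ 2) + 2 * (J.1 ^ 2 * B) := by linarith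
    have k1 : ∀ n : ℤ, n ^ 2 ≤ R → n ∈ Set.Icc (-R) R := by
      intro n hn
      have h3 : |n| ≤ n ^ 2 := by
        rw [← sq_abs]
        rcases eq_or_ne n 0 with h | h
        · rw [h]; simp
        · have := Int.one_le_abs h
          nlinarith
      exact abs_le.1 (h3.trans hn)
    refine ⟨k1 _ (by linarith), ?_⟩
    intro i _
    refine k1 _ ?_
    have h3 : D.2 i ^ 2 ≤ E := Finset.single_le_sum (f := fun i => D.2 i ^ 2)
      (fun j _ => sq_nonneg _) (Finset.mem_univ i)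
    linarith
  exact ((Set.finite_Icc _ _).prod (Set.Finite.pi fun _ => Set.finite_Icc _ _)).subset hsub

end Pool.Agent.H43.DP
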