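import Pool.Agent.H43.DP.Wall

/-!
The ordered product: splitting off the linear term; comparison of the two orders away from walls.
-/

set_option autoImplicit false

open Finset

namespace Pool.Agent.H43.DP

/-- one term of the ordered product -/
noncomputable def term (ε : ℤ) (c : Cls → K) (m : Cls →₀ ℕ) : K :=
  (m.prod fun a k => c a ^ k / (k.factorial : K)) * t ^ (ε * crossing m)

lemma ordProd_def (ε : ℤ) (c : Cls → K) (g : Cls) :
    ordProd ε c g = ∑ᶠ (m : Cls →₀ ℕ) (_ : total m = g), term ε c m := rfl

lemma term_eq_zero {ε : ℤ} {c : Cls → K} {m : Cls →₀ ℕ} {b : Cls} (hb : b ∈ m.support)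
    (h : c b = 0) : term ε c m = 0 := by
  unfold term
  have : (m.prod fun a k => c a ^ k / (k.factorial : K)) = 0 := by
    unfold Finsupp.prod
    refine Finset.prod_eq_zero hb ?_
    simp only []
    rw [h, zero_pow (Finsupp.mem_support_iff.1 hb), zero_div]
  rw [this, zero_mul]

lemma term_congr {ε : ℤ} {c c' : Cls → K} {m : Cls →₀ ℕ} (h : ∀ b ∈ m.support, c b = c' b) :
    term ε c m = term ε c' m := by
  unfold term
  congr 1
  unfold Finsupp.prod
  exact Finset.prod_congr rfl fun b hb => by simp only []; rw [h b hb]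

lemma crossing_eq_zero {m : Cls →₀ ℕ} (h : ∀ b ∈ m.support, ∀ b' ∈ m.support, pair b b' = 0) :
    crossing m = 0 := by
  unfold crossing Finsupp.sum
  refine Finset.sum_eq_zero fun b hb => Finset.sum_eq_zero fun b' hb' => ?_
  show m b * m b' * (pair b b').toNat = 0
  rw [h b hb b' hb']
  simp

lemma term_comm {c : Cls → K} {m : Cls →₀ ℕ}
    (h : ∀ b ∈ m.support, ∀ b' ∈ m.support, pair b b' = 0) : term 1 c m = term (-1) c m := by
  unfold term
  rw [crossing_eq_zero h]
  simp

lemma total_eq (m : Cls →₀ ℕ) : total m = ∑ b ∈ m.support, m b • b := rfl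

lemma rank_total (m : Cls →₀ ℕ) : (total m).1 = ∑ b ∈ m.support, (m b : ℤ) * b.1 := by
  rw [total_eq, Prod.fst_sum]
  refine Finset.sum_congr rfl fun b _ => ?_
  rw [Prod.smul_fst, nsmul_eq_mul]

lemma total_single (b : Cls) (k : ℕ) : total (Finsupp.single b k) = k • b := by
  unfold total
  rw [Finsupp.sum_single_index (by simp)]

lemma total_add (m m' : Cls →₀ ℕ) : total (m + m') = total m + total m' := by
  unfold total
  rw [Finsupp.sum_add_index' (by simp) (by intro a b c; exact add_nsmul _ _ _)]

/-- removing one constituent -/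
lemma split_one {m : Cls →₀ ℕ} {b : Cls} (hb : b ∈ m.support) :
    ∃ m' : Cls →₀ ℕ, m = Finsupp.single b 1 + m' ∧ m'.support ⊆ m.support := by
  classical
  refine ⟨m - Finsupp.single b 1, ?_, ?_⟩
  · rw [add_tsub_cancel_of_le]
    rw [Finsupp.single_le_iff]
    exact Nat.one_le_iff_ne_zero.2 (Finsupp.mem_support_iff.1 hb)
  · intro c hc
    rw [Finsupp.mem_support_iff] at hc ⊢
    intro h
    apply hc
    rw [Finsupp.tsub_apply, h, Nat.zero_sub]

/-- a proper constituent has smaller rank -/
lemma rank_lt {m : Cls →₀ ℕ} (hpos : ∀ b ∈ m.support, 0 < b.1) {b : Cls} (hb : b ∈ m.support)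
    (hm : m ≠ Finsupp.single b 1) : b.1 < (total m).1 := by
  obtain ⟨m', rfl, hsub⟩ := split_one hb
  have hne : m' ≠ 0 := by
    rintro rfl
    exact hm (by simp)
  obtain ⟨c, hc⟩ := Finsupp.support_nonempty_iff.2 hne
  rw [total_add, total_single, one_smul]
  have h1 : 0 < (total m').1 := by
    rw [rank_total]
    refine Finset.sum_pos (fun e he => ?_) ⟨c, hc⟩
    have h2 : 1 ≤ m' e := Nat.one_le_iff_ne_zero.2 (Finsupp.mem_support_iff.1 he)
    exact mul_pos (by exact_mod_cast h2) (hpos e (hsub he))
  show b.1 < b.1 + (total m').1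
  omega

/-- restriction to the classes of rank smaller than that of `g` -/
noncomputable def low (g : Cls) (c : Cls → K) (b : Cls) : K := if b.1 < g.1 then c b else 0

/-- splitting off the linear term -/
lemma tri {ε : ℤ} {c : Cls → K} {g : Cls} (hpos : ∀ b, c b ≠ 0 → 0 < b.1)
    (hfin : {m : Cls →₀ ℕ | total m = g ∧ ∀ b ∈ m.support, c b ≠ 0}.Finite) :
    ordProd ε c g = c g + ordProd ε (low g c) g := by
  classical
  rw [ordProd_def, ordProd_def]
  have key : ∀ m : Cls →₀ ℕ, (∑ᶠ (_ : total m = g), term ε c m) =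
      (if m = Finsupp.single g 1 then c g else 0) +
        (∑ᶠ (_ : total m = g), term ε (low g c) m) := by
    intro m
    rw [finsum_eq_if, finsum_eq_if]
    by_cases hm1 : m = Finsupp.single g 1
    · have hsupp : g ∈ (Finsupp.single g 1 : Cls →₀ ℕ).support := by simp
      rw [hm1, if_pos rfl]
      have htot : total (Finsupp.single g 1) = g := by rw [total_single, one_smul]
      rw [if_pos htot, if_pos htot, term_eq_zero (c := low g c) hsupp (by unfold low; simp),
        add_zero]
      unfold term crossing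
      rw [Finsupp.prod_single_index (by simp), Finsupp.sum_single_index (by simp),
        Finsupp.sum_single_index (by simp)]
      have : pair g g = 0 := by unfold pair; ring
      rw [this]
      simp
    · rw [if_neg hm1, zero_add]
      split_ifs with htot
      swap
      · rfl
      by_cases hall : ∀ b ∈ m.support, c b ≠ 0
      · refine term_congr fun b hb => ?_
        unfold low
        rw [if_pos]
        rw [← htot]
        refine rank_lt (fun e he => hpos e (hall e he)) hb ?_
        intro h
        apply hm1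
        have : total m = b := by rw [h, total_single, one_smul]
        rw [← htot, this]
        exact h
      · push Not at hall
        obtain ⟨b, hb, h0⟩ := hall
        rw [term_eq_zero hb h0, term_eq_zero (c := low g c) hb (by unfold low; simp [h0])]
  rw [finsum_congr key, finsum_add_distrib]
  · congr 1
    rw [finsum_eq_single _ (Finsupp.single g 1)]
    · rw [if_pos rfl]
    · intro m hm
      rw [if_neg hm]
  · refine (Set.finite_singleton (Finsupp.single g 1 : Cls →₀ ℕ)).subset ?_
    intro m hm
    rw [Function.mem_support] at hm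
    split_ifs at hm with h
    · exact h
    · exact absurd rfl hm
  · refine hfin.subset ?_
    intro m hm
    rw [Function.mem_support, finsum_eq_if] at hm
    split_ifs at hm with htot
    swap
    · exact absurd rfl hm
    refine ⟨htot, fun b hb h0 => hm ?_⟩
    exact term_eq_zero hb (by unfold low; simp [h0])

section

variable {f : Pic} (hf : dot f f = 0) (hF : dot Fib f = 2) {s μ : ℝ} (h0 : 0 < s) (h1 : s < 1)

include hf hF h0 h1

/-- finitely many decompositions -/
lemma dec_finite {c : Cls → K} (hc : ∀ b, c b ≠ 0 → Adm f s μ b) (g : Cls) :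
    {m : Cls →₀ ℕ | total m = g ∧ ∀ b ∈ m.support, c b ≠ 0}.Finite := by
  classical
  set C : ℝ := μ ^ 2 / (8 * (s * (1 - s))) + 1 with hC
  have hfin := finite_deg hf hF h0 h1 (le_refl C) (degHom C g)
  obtain ⟨N, hN⟩ := exists_nat_gt (degHom C g)
  refine ((hfin.toFinset.finsupp fun _ => Finset.range (N + 1)).finite_toSet).subset ?_
  rintro m ⟨htot, hall⟩
  have hpos : ∀ b ∈ m.support, (1 : ℝ) ≤ degHom C b := by
    intro b hb
    have h2 := hc b (hall b hb)
    have h3 := deg_pos hf hF h0 h1 (le_refl C) h2
    have h4 : (1 : ℝ) ≤ b.1 := by exact_mod_cast h2.1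
    linarith
  have hdeg : degHom C g = ∑ b ∈ m.support, (m b : ℝ) * degHom C b := by
    rw [← htot, total_eq, map_sum]
    exact Finset.sum_congr rfl fun b _ => by rw [map_nsmul, nsmul_eq_mul]
  have hle : ∀ b ∈ m.support, (m b : ℝ) * degHom C b ≤ degHom C g := by
    intro b hb
    rw [hdeg]
    exact Finset.single_le_sum (f := fun b => (m b : ℝ) * degHom C b)
      (fun e he => mul_nonneg (Nat.cast_nonneg _) (by linarith [hpos e he])) hb
  have hm1 : ∀ b ∈ m.support, (1 : ℝ) ≤ m b := by
    intro b hb
    have : 1 ≤ m b := Nat.one_le_iff_ne_zero.2 (Finsupp.mem_support_iff.1 hb)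
    exact_mod_cast this
  rw [Finset.mem_coe, Finset.mem_finsupp_iff]
  refine ⟨fun b hb => ?_, fun b _ => ?_⟩
  · rw [Set.Finite.mem_toFinset]
    refine ⟨?_, hc b (hall b hb)⟩
    nlinarith [hle b hb, hm1 b hb, hpos b hb]
  · rw [Finset.mem_range]
    by_cases hb : b ∈ m.support
    · have h2 : (m b : ℝ) < N := by nlinarith [hle b hb, hm1 b hb, hpos b hb]
      have h3 : m b < N := by exact_mod_cast h2
      omega
    · rw [Finsupp.notMem_support_iff.1 hb]; omega

/-- splitting off the linear term, for admissible classes -/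
lemma tri_adm {ε : ℤ} {c : Cls → K} (hc : ∀ b, c b ≠ 0 → Adm f s μ b) (g : Cls) :
    ordProd ε c g = c g + ordProd ε (low g c) g :=
  tri (fun b hb => (hc b hb).1) (dec_finite hf hF h0 h1 hc g)

lemma total_mem {m : Cls →₀ ℕ} (h : ∀ b ∈ m.support, Adm f s μ b) :
    total m ∈ admSub f hf hF s μ h0 h1 := by
  rw [total_eq]
  exact AddSubmonoid.sum_mem _ fun b hb =>
    AddSubmonoid.nsmul_mem _ (mem_admSub.2 (Or.inr (h b hb))) _

/-- away from the walls of the total class the constituents pair to zero -/
lemma pair_zero {m : Cls →₀ ℕ} (h : ∀ b ∈ m.support, Adm f s μ b) (hw : ¬ Wall f s (total m)) :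
    ∀ b ∈ m.support, ∀ b' ∈ m.support, pair b b' = 0 := by
  have key : ∀ b ∈ m.support, pair b (total m) = 0 := by
    intro b hb
    obtain ⟨m', hm', hsub⟩ := split_one hb
    have hmem := total_mem hf hF h0 h1 (m := m') fun e he => h e (hsub he)
    have htot : total m = b + total m' := by rw [hm', total_add, total_single, one_smul]
    have e : pair b (total m) = pair b (total m') := by
      rw [htot, ← pairHom_apply, map_add, pairHom_self, zero_add, pairHom_apply]
    rcases mem_admSub.1 hmem with hz | hz
    · rw [e, hz, ← pairHom_apply, map_zero]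
    · by_contra hne
      exact hw ⟨h0, h1, μ, b, total m', htot.symm, h b hb, hz, by rw [← e]; exact hne⟩
  intro b hb b' hb'
  have k1 := key b hb
  have k2 := key b' hb'
  unfold pair at k1 k2 ⊢
  have hb1 := (h b hb).1
  have hr : 0 < (total m).1 := by
    rw [rank_total]
    refine Finset.sum_pos (fun e he => ?_) ⟨b, hb⟩
    have h2 : 1 ≤ m e := Nat.one_le_iff_ne_zero.2 (Finsupp.mem_support_iff.1 he)
    exact mul_pos (by exact_mod_cast h2) (h e he).1
  have e : (total m).1 * (b.1 * dot Fib b'.2.1 - b'.1 * dot Fib b.2.1) = 0 := by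
    linear_combination b'.1 * k1 - b.1 * k2
  exact (mul_eq_zero.1 e).resolve_left hr.ne'

/-- a wall of a constituent is a wall of the total class -/
lemma wall_total {m : Cls →₀ ℕ} (h : ∀ b ∈ m.support, Adm f s μ b) {b : Cls} (hb : b ∈ m.support)
    (hw : Wall f s b) : Wall f s (total m) := by
  by_contra hcon
  obtain ⟨-, -, μ', b1, b2, hsum, hb1, hb2, hp⟩ := hw
  have hμ : μ' = μ := by
    have h2 := (adm_add hf hF h0 h1 hb1 hb2).2.2
    rw [hsum] at h2
    have h3 := (h b hb).2.2
    have h4 : (0 : ℝ) < b.1 := by exact_mod_cast (h b hb).1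
    have h5 : μ' * b.1 = μ * b.1 := by rw [← h2, h3]
    exact mul_right_cancel₀ h4.ne' h5
  subst hμ
  obtain ⟨m', hm', hsub⟩ := split_one hb
  have hmem := total_mem hf hF h0 h1 (m := m') fun e he => h e (hsub he)
  have htot : total m = b + total m' := by rw [hm', total_add, total_single, one_smul]
  rw [htot] at hcon
  rcases mem_admSub.1 hmem with hz | hz
  · rw [hz, add_zero] at hcon
    exact hcon ⟨h0, h1, μ', b1, b2, hsum, hb1, hb2, hp⟩
  · have k1 : pair b1 (b2 + total m') = 0 := by
      by_contra hne
      exact hcon ⟨h0, h1, μ', b1, b2 + total m', by rw [← hsum, add_assoc], hb1,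
        adm_add hf hF h0 h1 hb2 hz, hne⟩
    have k2 : pair b2 (b1 + total m') = 0 := by
      by_contra hne
      exact hcon ⟨h0, h1, μ', b2, b1 + total m', by rw [← hsum]; abel, hb2,
        adm_add hf hF h0 h1 hb1 hz, hne⟩
    apply hp
    unfold pair at k1 k2 ⊢
    simp only [Prod.fst_add, Prod.snd_add, dot_add] at k1 k2
    have hr : 0 < b1.1 + b2.1 + (total m').1 := by
      have := hb1.1
      have := hb2.1
      have := hz.1
      omega
    have e : (b1.1 + b2.1 + (total m').1) * (b1.1 * dot Fib b2.2.1 - b2.1 * dot Fib b1.2.1) = 0 := by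
      linear_combination b2.1 * k1 - b1.1 * k2
    exact (mul_eq_zero.1 e).resolve_left hr.ne'

end

end Pool.Agent.H43.DP
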