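import Pool.Agent.H43.DP.Deg
import Pool.Agent.H73.P2.Fix

/-!
Walls: closure of the Bogomolov inequality under sums of classes of the same slope, finiteness of the
set of walls of a class.
-/

set_option autoImplicit false

open Finset

namespace Pool.Agent.H43.DP

/-- `2 ch₂`, an integer -/
def tw (a : Cls) : ℤ := 2 * a.2.2 - 2 * a.1 - dot Fib a.2.1

lemma tw_add (a b : Cls) : tw (a + b) = tw a + tw b := by
  unfold tw
  simp only [Prod.fst_add, Prod.snd_add, dot_add]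
  ring

lemma bog_iff (a : Cls) : Bog a ↔ 0 < a.1 ∧ a.1 * tw a ≤ dot a.2.1 a.2.1 := Iff.rfl

/-- the vector `r(b) D(b') - r(b') D(b)` -/
def wv (b b' : Cls) : Pic := b.1 • b'.2.1 - b'.1 • b.2.1

lemma fib_wv (b b' : Cls) : dot Fib (wv b b') = pair b b' := by
  unfold wv pair
  rw [dot_sub, dot_zsmul, dot_zsmul]

lemma wv_sq (b b' : Cls) : (b.1 + b'.1) * (b'.1 * dot b.2.1 b.2.1 + b.1 * dot b'.2.1 b'.2.1) =
    b.1 * b'.1 * dot (b + b').2.1 (b + b').2.1 + dot (wv b b') (wv b b') := by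
  have e : (b + b').2.1 = b.2.1 + b'.2.1 := rfl
  rw [e]
  unfold wv
  simp only [dot_sub, sub_dot, dot_add, add_dot, dot_zsmul, zsmul_dot, dot_comm b'.2.1 b.2.1]
  ring

lemma bog_sum {b b' : Cls} (hb : Bog b) (hb' : Bog b') :
    b.1 * b'.1 * ((b + b').1 * tw (b + b')) ≤
      b.1 * b'.1 * dot (b + b').2.1 (b + b').2.1 + dot (wv b b') (wv b b') := by
  obtain ⟨h1, h2⟩ := (bog_iff b).1 hb
  obtain ⟨h3, h4⟩ := (bog_iff b').1 hb'
  rw [← wv_sq, tw_add]
  have e : b.1 * b'.1 * ((b + b').1 * (tw b + tw b')) =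
      (b.1 + b'.1) * (b'.1 * (b.1 * tw b) + b.1 * (b'.1 * tw b')) := by
    have : (b + b').1 = b.1 + b'.1 := rfl
    rw [this]; ring
  rw [e]
  refine mul_le_mul_of_nonneg_left ?_ (by omega)
  exact add_le_add (mul_le_mul_of_nonneg_left h2 h3.le) (mul_le_mul_of_nonneg_left h4 h1.le)

lemma bog_add {b b' : Cls} (hb : Bog b) (hb' : Bog b') (h : dot (wv b b') (wv b b') ≤ 0) :
    Bog (b + b') := by
  have h5 := bog_sum hb hb'
  have h1 := hb.1
  have h3 := hb'.1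
  refine (bog_iff _).2 ⟨add_pos h1 h3, ?_⟩
  have h6 : b.1 * b'.1 * ((b + b').1 * tw (b + b')) ≤
      b.1 * b'.1 * dot (b + b').2.1 (b + b').2.1 := by linarith
  exact le_of_mul_le_mul_left h6 (mul_pos h1 h3)

lemma jdeg_wv {f : Pic} {s μ : ℝ} {b b' : Cls} (hb : jdeg f s b.2.1 = μ * b.1)
    (hb' : jdeg f s b'.2.1 = μ * b'.1) : jdeg f s (wv b b') = 0 := by
  unfold jdeg at *
  unfold wv
  simp only [dot_sub, dot_zsmul]
  push_cast
  linear_combination (b.1 : ℝ) * hb' - (b'.1 : ℝ) * hb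

section

variable {f : Pic} (hf : dot f f = 0) (hF : dot Fib f = 2) {s μ : ℝ} (h0 : 0 < s) (h1 : s < 1)

include h0 h1 in
lemma prod_nonpos {ξ : Pic} (h : jdeg f s ξ = 0) :
    dot f ξ * dot Fib ξ ≤ 0 ∧ (dot Fib ξ ≠ 0 → dot f ξ * dot Fib ξ < 0) := by
  unfold jdeg at h
  have e : (1 - s) * ((dot f ξ : ℝ) * dot Fib ξ) = -(s * (dot Fib ξ : ℝ) ^ 2) := by
    linear_combination (dot Fib ξ : ℝ) * h
  have hs : 0 < 1 - s := by linarith
  constructor
  · have : (dot f ξ : ℝ) * dot Fib ξ ≤ 0 := by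
      by_contra hc
      push Not at hc
      have h2 := mul_pos hs hc
      have h3 : 0 ≤ s * (dot Fib ξ : ℝ) ^ 2 := by positivity
      linarith
    exact_mod_cast this
  · intro hne
    have hne' : (dot Fib ξ : ℝ) ≠ 0 := by exact_mod_cast hne
    have : (dot f ξ : ℝ) * dot Fib ξ < 0 := by
      by_contra hc
      push Not at hc
      have h2 := mul_nonneg hs.le hc
      have h3 : 0 < s * (dot Fib ξ : ℝ) ^ 2 := by positivity
      linarith
    exact_mod_cast this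

include hf hF h0 h1 in
lemma adm_add {b b' : Cls} (hb : Adm f s μ b) (hb' : Adm f s μ b') : Adm f s μ (b + b') := by
  obtain ⟨hr, hB, hs⟩ := hb
  obtain ⟨hr', hB', hs'⟩ := hb'
  have hj := jdeg_wv hs hs'
  have h2 := hodge hf hF (wv b b')
  have h3 := (prod_nonpos h0 h1 hj).1
  have h4 := bog_add (b := b) (b' := b') ⟨hr, hB⟩ ⟨hr', hB'⟩ (h2.trans h3)
  refine ⟨h4.1, h4.2, ?_⟩
  have e : jdeg f s (b + b').2.1 = jdeg f s b.2.1 + jdeg f s b'.2.1 := by
    have e2 : (b + b').2.1 = b.2.1 + b'.2.1 := rfl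
    rw [e2]
    unfold jdeg
    rw [dot_add, dot_add]
    push_cast
    ring
  rw [e, hs, hs']
  have e3 : (b + b').1 = b.1 + b'.1 := rfl
  rw [e3]
  push_cast
  ring

/-- zero and the admissible classes of slope `μ` -/
def admSub (f : Pic) (hf : dot f f = 0) (hF : dot Fib f = 2) (s μ : ℝ) (h0 : 0 < s) (h1 : s < 1) :
    AddSubmonoid Cls where
  carrier := {a | a = 0 ∨ Adm f s μ a}
  zero_mem' := Or.inl rfl
  add_mem' := by
    rintro a b (rfl | ha) (rfl | hb)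
    · left; simp
    · right; simpa using hb
    · right; simpa using ha
    · right; exact adm_add hf hF h0 h1 ha hb

lemma mem_admSub {f : Pic} {hf : dot f f = 0} {hF : dot Fib f = 2} {s μ : ℝ} {h0 : 0 < s}
    {h1 : s < 1} {a : Cls} : a ∈ admSub f hf hF s μ h0 h1 ↔ a = 0 ∨ Adm f s μ a := Iff.rfl

end

/-- a wall of the class `g` -/
def Wall (f : Pic) (s : ℝ) (g : Cls) : Prop :=
  0 < s ∧ s < 1 ∧ ∃ (μ : ℝ) (b b' : Cls), b + b' = g ∧ Adm f s μ b ∧ Adm f s μ b' ∧ pair b b' ≠ 0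

section

variable {f : Pic} (hf : dot f f = 0) (hF : dot Fib f = 2)

include hf hF

lemma wall_adm {s : ℝ} {g : Cls} (h : Wall f s g) : ∃ μ, Adm f s μ g := by
  obtain ⟨h0, h1, μ, b, b', rfl, hb, hb', -⟩ := h
  exact ⟨μ, adm_add hf hF h0 h1 hb hb'⟩

lemma wall_bog {s : ℝ} {g : Cls} (h : Wall f s g) : Bog g := by
  obtain ⟨μ, h1, h2, -⟩ := wall_adm hf hF h
  exact ⟨h1, h2⟩

lemma wall_finite (g : Cls) : {s : ℝ | Wall f s g}.Finite := by
  set C : ℤ := g.1 ^ 2 * (dot g.2.1 g.2.1 - g.1 * tw g) with hC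
  have hfin : ((fun p : ℤ × ℤ => ((p.1 : ℝ) / ((p.1 : ℝ) - p.2))) ''
      (Set.Icc (-C) C ×ˢ Set.Icc (-C) C)).Finite :=
    ((Set.finite_Icc _ _).prod (Set.finite_Icc _ _)).image _
  refine hfin.subset ?_
  intro s h
  have hg := wall_bog hf hF h
  obtain ⟨h0, h1, μ, b, b', hbb, hb, hb', hp⟩ := h
  have hj := jdeg_wv hb.2.2 hb'.2.2
  have h2 := hodge hf hF (wv b b')
  have hne : dot Fib (wv b b') ≠ 0 := by rw [fib_wv]; exact hp
  have h3 := (prod_nonpos h0 h1 hj).2 hne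
  have h4 := bog_sum (b := b) (b' := b') ⟨hb.1, hb.2.1⟩ ⟨hb'.1, hb'.2.1⟩
  rw [hbb] at h4
  set x := dot f (wv b b') with hx
  set y := dot Fib (wv b b') with hy
  have hsum : b.1 + b'.1 = g.1 := by rw [← hbb]; rfl
  have hr := hb.1
  have hr' := hb'.1
  have hd : 0 ≤ dot g.2.1 g.2.1 - g.1 * tw g := by
    have := ((bog_iff g).1 hg).2
    linarith
  have hlow : -C ≤ x * y := by
    have h5 : b.1 * b'.1 * (dot g.2.1 g.2.1 - g.1 * tw g) ≤
        g.1 ^ 2 * (dot g.2.1 g.2.1 - g.1 * tw g) := by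
      refine mul_le_mul_of_nonneg_right ?_ hd
      rw [← hsum]
      nlinarith
    rw [hC]
    nlinarith
  have habs : |x| * |y| ≤ C := by
    rw [← abs_mul, abs_of_neg h3]
    linarith
  have hx0 : x ≠ 0 := by
    intro h
    rw [h, zero_mul] at h3
    exact lt_irrefl _ h3
  have hx1 := Int.one_le_abs hx0
  have hy1 := Int.one_le_abs hne
  have hxC : |x| ≤ C := by nlinarith
  have hyC : |y| ≤ C := by nlinarith
  refine ⟨(x, y), ⟨abs_le.1 hxC, abs_le.1 hyC⟩, ?_⟩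
  show (x : ℝ) / ((x : ℝ) - y) = s
  have hxy : (x : ℝ) - y ≠ 0 := by
    intro h
    have h6 : x = y := by
      have : (x : ℝ) = y := by linarith
      exact_mod_cast this
    rw [h6] at h3
    nlinarith [sq_nonneg y]
  rw [div_eq_iff hxy]
  unfold jdeg at hj
  rw [← hx, ← hy] at hj
  linear_combination hj

end

end Pool.Agent.H43.DP
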